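import Pool.Agent.V11317.Had.Sec
import Pool.Agent.W677.Summand3

set_option autoImplicit false

/-!
Shadow sections by affine hyperplanes, dimensions, towers.
-/

open Set Topology
open Pool.Agent.W677.Summand

namespace Pool.Agent.V11317.Had

section gen

variable {E : Type*} [NormedAddCommGroup E] [NormedSpace ℝ E]

theorem trans_int (w : E) (A : Set E) :
    intrinsicInterior ℝ ((fun x => w + x) '' A) = (fun x => w + x) '' intrinsicInterior ℝ A :=
  ((AffineIsometryEquiv.constVAdd ℝ E w).toAffineIsometry).intrinsicInterior_image (𝕜 := ℝ) A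

theorem RCov.translate {A : Set E} {N : ℕ} (h : RCov A N) (w : E) :
    RCov ((fun x => w + x) '' A) N := by
  obtain ⟨T, hT, h1⟩ := h
  refine ⟨T, hT, ?_⟩
  rintro _ ⟨a, ha, rfl⟩
  obtain ⟨t, ht, z, hz, h2⟩ := mem_iUnion₂.1 (h1 ha)
  refine mem_iUnion₂.2 ⟨t, ht, w + z, ?_, ?_⟩
  · rw [trans_int]
    exact ⟨z, hz, rfl⟩
  · simp only at h2 ⊢
    rw [← h2]; abel

theorem back (w : E) (A : Set E) : (fun x => w + x) '' ((fun x => -w + x) '' A) = A := by
  rw [Set.image_image]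
  simp

/-- `F` is the section of `K` by the hyperplane `φ = c`, and `K` projects into `F` along `v`. -/
def Sh (K F : Set E) (φ : E →L[ℝ] ℝ) (c : ℝ) (v : E) : Prop :=
  φ v = 1 ∧ F = {x | x ∈ K ∧ φ x = c} ∧ ∀ x ∈ K, x - (φ x - c) • v ∈ K

theorem Sh.nonempty {K F : Set E} {φ : E →L[ℝ] ℝ} {c : ℝ} {v : E} (h : Sh K F φ c v)
    (hK : K.Nonempty) : F.Nonempty := by
  obtain ⟨hv, hF, hsh⟩ := h
  obtain ⟨x, hx⟩ := hK
  refine ⟨x - (φ x - c) • v, ?_⟩
  rw [hF]
  refine ⟨hsh x hx, ?_⟩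
  rw [map_sub, map_smul, hv, smul_eq_mul]
  ring

/-- move a point of `F` to the origin -/
theorem Sh.move {K F : Set E} {φ : E →L[ℝ] ℝ} {c : ℝ} {v : E} (h : Sh K F φ c v) {p : E}
    (hp : p ∈ F) : ((fun x => -p + x) '' F = {x | x ∈ (fun x => -p + x) '' K ∧ φ x = 0}) ∧
      ∀ x ∈ (fun x => -p + x) '' K, x - φ x • v ∈ (fun x => -p + x) '' K := by
  obtain ⟨hv, hF, hsh⟩ := h
  have hpc : φ p = c := by rw [hF] at hp; exact hp.2
  constructor
  · ext x
    constructor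
    · rintro ⟨y, hy, rfl⟩
      rw [hF] at hy
      refine ⟨⟨y, hy.1, rfl⟩, ?_⟩
      simp only [map_add, map_neg, hpc, hy.2]
      ring
    · rintro ⟨⟨y, hy, rfl⟩, h2⟩
      refine ⟨y, ?_, rfl⟩
      rw [hF]
      refine ⟨hy, ?_⟩
      simp only [map_add, map_neg, hpc] at h2
      linarith
  · rintro _ ⟨y, hy, rfl⟩
    refine ⟨_, hsh y hy, ?_⟩
    simp only [map_add, map_neg, hpc]
    have : φ y - c = -c + φ y := by ring
    rw [this]
    abel

theorem empty_cov (N : ℕ) : RCov (∅ : Set E) N := ⟨∅, by simp, by simp⟩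

theorem facet_aff {K F : Set E} (hK : Convex ℝ K) (hKc : IsCompact K)
    (hri : K.Nonempty → (intrinsicInterior ℝ K).Nonempty) {φ : E →L[ℝ] ℝ} {c : ℝ} {v : E}
    (h : Sh K F φ c v) (hpos : ∀ x ∈ K, c ≤ φ x) {N : ℕ} (hN : RCov F N) : RCov K (2 * N) := by
  rcases K.eq_empty_or_nonempty with h0 | h0
  · rw [h0]; exact empty_cov _
  obtain ⟨p, hp⟩ := h.nonempty h0
  have hpc : φ p = c := by
    have hp' := hp
    rw [h.2.1] at hp'; exact hp'.2
  obtain ⟨h1, h2⟩ := h.move hp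
  have key := facet (K := (fun x => -p + x) '' K) (F := (fun x => -p + x) '' F)
    (hK.translate (-p)) (hKc.image (by fun_prop)) (fun _ => by
      rw [trans_int]; exact (hri h0).image _) h.1 h1 h2 (by
      rintro _ ⟨y, hy, rfl⟩
      simp only [map_add, map_neg, hpc]
      linarith [hpos y hy]) (hN.translate (-p))
  have := key.translate p
  rwa [back] at this

theorem sect_aff {K F : Set E} (hK : Convex ℝ K) (hKc : IsCompact K)
    (hri : K.Nonempty → (intrinsicInterior ℝ K).Nonempty) {φ : E →L[ℝ] ℝ} {c : ℝ} {v : E}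
    (h : Sh K F φ c v) {N : ℕ} (hN : RCov F N) : RCov K (3 * N) := by
  rcases K.eq_empty_or_nonempty with h0 | h0
  · rw [h0]; exact empty_cov _
  obtain ⟨p, hp⟩ := h.nonempty h0
  obtain ⟨h1, h2⟩ := h.move hp
  have key := sect (K := (fun x => -p + x) '' K) (F := (fun x => -p + x) '' F)
    (hK.translate (-p)) (hKc.image (by fun_prop)) (fun _ => by
      rw [trans_int]; exact (hri h0).image _) h.1 h1 h2 (hN.translate (-p))
  have := key.translate p
  rwa [back] at this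

/-- the dimension drops -/
theorem dims [FiniteDimensional ℝ E] {K F : Set E} {φ : E →L[ℝ] ℝ} {c : ℝ} {v : E}
    (h : Sh K F φ c v) (hne : F ≠ K) :
    Module.finrank ℝ (vectorSpan ℝ F) < Module.finrank ℝ (vectorSpan ℝ K) := by
  obtain ⟨hv, hF, hsh⟩ := h
  have hFK : F ⊆ K := by rw [hF]; exact fun x hx => hx.1
  obtain ⟨x, hx, hxF⟩ : ∃ x ∈ K, x ∉ F := by
    by_contra hcon
    push Not at hcon
    exact hne (subset_antisymm hFK hcon)
  have hxc : φ x - c ≠ 0 := by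
    intro h0
    apply hxF
    rw [hF]
    exact ⟨hx, by linarith⟩
  have hvK : v ∈ vectorSpan ℝ K := by
    have h1 : x - (x - (φ x - c) • v) ∈ vectorSpan ℝ K := vsub_mem_vectorSpan ℝ hx (hsh x hx)
    rw [sub_sub_cancel] at h1
    have := Submodule.smul_mem _ (φ x - c)⁻¹ h1
    rwa [smul_smul, inv_mul_cancel₀ hxc, one_smul] at this
  have hvF : v ∉ vectorSpan ℝ F := by
    intro hcon
    have hle : vectorSpan ℝ F ≤ LinearMap.ker φ.toLinearMap := by
      rw [vectorSpan, Submodule.span_le]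
      rintro _ ⟨a, ha, b, hb, rfl⟩
      rw [hF] at ha hb
      show φ (a - b) = 0
      rw [map_sub, ha.2, hb.2, sub_self]
    have : φ v = 0 := hle hcon
    rw [hv] at this
    exact one_ne_zero this
  refine Submodule.finrank_lt_finrank_of_lt (lt_of_le_of_ne (vectorSpan_mono ℝ hFK) ?_)
  intro heq
  rw [heq] at hvF
  exact hvF hvK

theorem step [FiniteDimensional ℝ E] {K F : Set E} (hK : Convex ℝ K) (hKc : IsCompact K)
    (hri : K.Nonempty → (intrinsicInterior ℝ K).Nonempty) {φ : E →L[ℝ] ℝ} {c : ℝ} {v : E}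
    (h : Sh K F φ c v) (hpos : ∀ x ∈ K, c ≤ φ x)
    (hN : RCov F (2 ^ Module.finrank ℝ (vectorSpan ℝ F))) :
    RCov K (2 ^ Module.finrank ℝ (vectorSpan ℝ K)) := by
  by_cases hne : F = K
  · rw [← hne]; exact hN
  · have h1 := dims h hne
    refine (facet_aff hK hKc hri h hpos hN).mono ?_
    rw [← pow_succ']
    exact Nat.pow_le_pow_right (by norm_num) h1

end gen

/-- sets of dimension at most two -/
theorem base {n : ℕ} {A : Set (Eu n)} (hA : Convex ℝ A) (hAc : IsCompact A)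
    (hd : Module.finrank ℝ (vectorSpan ℝ A) ≤ 2) :
    RCov A (2 ^ Module.finrank ℝ (vectorSpan ℝ A)) := by
  rcases A.eq_empty_or_nonempty with h0 | ⟨a₀, ha⟩
  · rw [h0]; exact empty_cov _
  obtain ⟨ι, hι⟩ := coords (vectorSpan ℝ A) (k := Module.finrank ℝ (vectorSpan ℝ A)) rfl
  have h1 : Cov (Lset ι A a₀) (2 ^ Module.finrank ℝ (vectorSpan ℝ A)) :=
    body_le_two hd ⟨Lset_convex hA, Lset_compact (fun x hx => (hι x).1 hx) ha hAc,
      Lset_int hι ha hA⟩
  exact rel_of_cov hι ha h1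

theorem tower {n : ℕ} (G : ℕ → Set (Eu n)) (k : ℕ)
    (hconv : ∀ i ≤ k, Convex ℝ (G i)) (hcomp : ∀ i ≤ k, IsCompact (G i))
    (h : ∀ i < k, ∃ (φ : Eu n →L[ℝ] ℝ) (c : ℝ) (v : Eu n), Sh (G (i + 1)) (G i) φ c v ∧
      ∀ x ∈ G (i + 1), c ≤ φ x)
    (hd : Module.finrank ℝ (vectorSpan ℝ (G 0)) ≤ 2) :
    RCov (G k) (2 ^ Module.finrank ℝ (vectorSpan ℝ (G k))) := by
  have : ∀ i ≤ k, RCov (G i) (2 ^ Module.finrank ℝ (vectorSpan ℝ (G i))) := by
    intro i
    induction i with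
    | zero => exact fun _ => base (hconv 0 (Nat.zero_le _)) (hcomp 0 (Nat.zero_le _)) hd
    | succ i ih =>
      intro hi
      obtain ⟨φ, c, v, h1, h2⟩ := h i hi
      exact step (hconv _ hi) (hcomp _ hi)
        (fun h0 => h0.intrinsicInterior (hconv _ hi)) h1 h2 (ih (by omega))
  exact this k le_rfl

theorem cov_of_rcov {n : ℕ} {K : Set (Eu n)} {N : ℕ} (hK : Convex ℝ K)
    (hint : (interior K).Nonempty) (h : RCov K N) : Cov K N := by
  obtain ⟨T, hT, h1⟩ := h
  refine ⟨T, hT, ?_⟩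
  rwa [intrinsicInterior_of_span (hK.interior_nonempty_iff_affineSpan_eq_top.1 hint)] at h1

end Pool.Agent.V11317.Had
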