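import Pool.Agent.V11317.Had.Aff

set_option autoImplicit false

/-!
Anti-blocking bodies.
-/

open Set Topology
open Pool.Agent.W677.Summand

namespace Pool.Agent.V11317.Had

/-- anti-blocking sets -/
def AntiBlocking {n : ℕ} (K : Set (Eu n)) : Prop :=
  (∀ x ∈ K, ∀ i, 0 ≤ x i) ∧ ∀ x ∈ K, ∀ y : Eu n, (∀ i, 0 ≤ y i ∧ y i ≤ x i) → y ∈ K

theorem int_box {n : ℕ} {K : Set (Eu n)} (hA : AntiBlocking K) {z y : Eu n} (hz : z ∈ K)
    (h : ∀ i, 0 < y i ∧ y i < z i) : y ∈ interior K := by
  refine mem_interior.2 ⟨{y | ∀ i, 0 < y i ∧ y i < z i}, ?_, ?_, h⟩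
  · intro y hy
    exact hA.2 z hz y (fun i => ⟨(hy i).1.le, (hy i).2.le⟩)
  · have : {y : Eu n | ∀ i, 0 < y i ∧ y i < z i} = ⋂ i, {y : Eu n | 0 < y i ∧ y i < z i} := by
      ext y; simp
    rw [this]
    refine isOpen_iInter_of_finite fun i => ?_
    have hc : Continuous fun y : Eu n => y i := by fun_prop
    exact (isOpen_lt continuous_const hc).inter (isOpen_lt hc continuous_const)

theorem pos_of_int {n : ℕ} {K : Set (Eu n)} (hA : ∀ x ∈ K, ∀ i, 0 ≤ x i) {p : Eu n}
    (hp : p ∈ interior K) (i : Fin n) : 0 < p i := by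
  have h1 : ∀ᶠ s in 𝓝 (0 : ℝ), p - s • (EuclideanSpace.single i 1 : Eu n) ∈ K := by
    have hc : Continuous fun s : ℝ => p - s • (EuclideanSpace.single i 1 : Eu n) := by fun_prop
    have := hc.tendsto 0
    rw [zero_smul, sub_zero] at this
    exact this.eventually (mem_interior_iff_mem_nhds.1 hp)
  obtain ⟨s, hs, hs0⟩ := ((h1.filter_mono nhdsWithin_le_nhds).and
    (self_mem_nhdsWithin (a := (0 : ℝ)) (s := Ioi 0))).exists
  have h2 := hA _ hs i
  simp at h2
  exact lt_of_lt_of_le hs0 h2

theorem anti {n : ℕ} {K : Set (Eu n)} (hK : Bdy K) (hA : AntiBlocking K)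
    (hbox : ¬ ∃ a : Fin n → ℝ, K = {x | ∀ i, 0 ≤ x i ∧ x i ≤ a i}) : Cov K (2 ^ n - 1) := by
  classical
  obtain ⟨hKv, hKc, p, hp⟩ := hK
  have hpK := interior_subset hp
  have hp0 := pos_of_int hA.1 hp
  obtain ⟨ρ, hρ, hρ0⟩ : ∃ ρ : ℝ, (ρ ≤ 1 ∧ ∀ i, ρ ≤ p i) ∧ 0 < ρ := by
    have h1 : ∀ᶠ s in 𝓝 (0 : ℝ), s ≤ 1 ∧ ∀ i, s ≤ p i :=
      (eventually_le_nhds one_pos).and (Filter.eventually_all.2 fun i => eventually_le_nhds (hp0 i))
    exact ((h1.filter_mono nhdsWithin_le_nhds).and
      (self_mem_nhdsWithin (a := (0 : ℝ)) (s := Ioi 0))).exists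
  set q : Eu n := WithLp.toLp 2 (fun _ => ρ) with hq
  have hqK : q ∈ K := hA.2 p hpK q (fun i => ⟨hρ0.le, hρ.2 i⟩)
  have hqi : ∀ i, q i = ρ := fun _ => rfl
  obtain ⟨C, hC⟩ := hKc.isBounded.exists_norm_le
  set R : ℝ := |C| + 1 with hR
  have hR1 : 1 ≤ R := by rw [hR]; linarith [abs_nonneg C]
  have hR0 : 0 < R := by linarith
  have hxR : ∀ x ∈ K, ∀ i, x i < R := by
    intro x hx i
    have h1 := PiLp.norm_apply_le x i
    have h2 := hC x hx
    have h3 := le_abs_self (x i)
    rw [Real.norm_eq_abs] at h1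
    have h4 := le_abs_self C
    rw [hR]; linarith
  have hmax : ∀ i : Fin n, ∃ w ∈ K, ∀ x ∈ K, x i ≤ w i := by
    intro i
    obtain ⟨w, hw, hw1⟩ := hKc.exists_isMaxOn ⟨p, hpK⟩
      (f := fun x : Eu n => x i) (by fun_prop : Continuous fun x : Eu n => x i).continuousOn
    exact ⟨w, hw, fun x hx => hw1 hx⟩
  choose w hw hwm using hmax
  have hmK : (WithLp.toLp 2 (fun i => w i i) : Eu n) ∉ K := by
    intro hcon
    apply hbox
    refine ⟨fun i => w i i, ?_⟩
    ext x
    constructor
    · intro hx i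
      exact ⟨hA.1 x hx i, hwm i x hx⟩
    · intro hx
      exact hA.2 _ hcon x hx
  -- a uniform gap
  obtain ⟨η, hη, hgap⟩ : ∃ η : ℝ, 0 < η ∧ ∀ x ∈ K, ∃ i, x i + η ≤ w i i := by
    have hcont : Continuous fun x : Eu n => ∑ i, (w i i - x i) := by fun_prop
    obtain ⟨y, hy, hy1⟩ := hKc.exists_isMinOn ⟨p, hpK⟩ hcont.continuousOn
    have hnn : ∀ x ∈ K, ∀ i, 0 ≤ w i i - x i := fun x hx i => by linarith [hwm i x hx]
    have hypos : 0 < ∑ i, (w i i - y i) := by
      refine lt_of_le_of_ne (Finset.sum_nonneg fun i _ => hnn y hy i) ?_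
      intro h0
      have h1 := (Finset.sum_eq_zero_iff_of_nonneg (fun i _ => hnn y hy i)).1 h0.symm
      apply hmK
      have : (WithLp.toLp 2 (fun i => w i i) : Eu n) = y := by
        ext i
        have := h1 i (Finset.mem_univ i)
        simp only
        linarith
      rw [this]; exact hy
    have hn : 0 < n := by
      rcases Nat.eq_zero_or_pos n with h0 | h0
      · subst h0
        simp at hypos
      · exact h0
    have : Nonempty (Fin n) := ⟨⟨0, hn⟩⟩
    have hn' : (0 : ℝ) < n := by exact_mod_cast hn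
    refine ⟨(∑ i, (w i i - y i)) / n, by positivity, fun x hx => ?_⟩
    by_contra hcon
    push Not at hcon
    have h1 : ∑ i, (w i i - x i) < ∑ i : Fin n, (∑ i, (w i i - y i)) / (n : ℝ) :=
      Finset.sum_lt_sum_of_nonempty Finset.univ_nonempty fun i _ => by linarith [hcon i]
    rw [Finset.sum_const, Finset.card_univ, Fintype.card_fin, nsmul_eq_mul,
      mul_div_cancel₀ _ hn'.ne'] at h1
    have h2 : ∑ i, (w i i - y i) ≤ ∑ i, (w i i - x i) := hy1 hx
    linarith
  set t : ℝ := ρ / (2 * R) with ht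
  have ht0 : 0 < t := by positivity
  have htR : t * R = ρ / 2 := by rw [ht]; field_simp
  have ht1 : t ≤ 1 := by
    rw [ht, div_le_one (by positivity)]
    linarith [hρ.1]
  set a : ℝ := min (t * ρ / 2) (t * η) / 2 with ha
  have hm : 0 < min (t * ρ / 2) (t * η) := lt_min (by positivity) (by positivity)
  have ha0 : 0 < a := by rw [ha]; linarith
  have ha1 : a < t * ρ / 2 := by
    have := min_le_left (t * ρ / 2) (t * η)
    rw [ha]; linarith
  have ha2 : a < t * η := by
    have := min_le_right (t * ρ / 2) (t * η)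
    rw [ha]; linarith
  set tv : Finset (Fin n) → Eu n := fun Z => WithLp.toLp 2 (fun i => if i ∈ Z then -a else t * R)
    with htv
  have htv1 : ∀ Z i, i ∈ Z → tv Z i = -a := fun Z i h => by simp [htv, h]
  have htv2 : ∀ Z i, i ∉ Z → tv Z i = t * R := fun Z i h => by simp [htv, h]
  refine ⟨((Finset.univ : Finset (Finset (Fin n))).erase ∅).image tv, ?_, ?_⟩
  · refine Finset.card_image_le.trans ?_
    rw [Finset.card_erase_of_mem (Finset.mem_univ _), Finset.card_univ, Fintype.card_finset,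
      Fintype.card_fin]
  · intro x hx
    set Z : Finset (Fin n) := Finset.univ.filter fun i => x i ≤ ρ / 2 with hZ
    rcases Z.eq_empty_or_nonempty with h0 | h0
    · -- all coordinates are large
      have hbig : ∀ i, ρ / 2 < x i := by
        intro i
        by_contra hcon
        have : i ∈ Z := by rw [hZ]; simp; linarith
        rw [h0] at this
        simp at this
      obtain ⟨i, hi⟩ := hgap x hx
      refine mem_iUnion₂.2 ⟨tv {i}, Finset.mem_image_of_mem _ (by simp), x - tv {i}, ?_, ?_⟩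
      · have hz : (1 - t) • x + t • w i ∈ K :=
          hKv hx (hw i) (by linarith) ht0.le (by ring)
        refine int_box hA hz fun j => ?_
        have e1 : (x - tv {i}) j = x j - tv {i} j := rfl
        have e2 : ((1 - t) • x + t • w i) j = (1 - t) * x j + t * w i j := rfl
        rw [e1, e2]
        by_cases hj : j = i
        · subst hj
          rw [htv1 _ _ (Finset.mem_singleton_self _)]
          have := hA.1 x hx j
          refine ⟨by linarith, ?_⟩
          nlinarith
        · rw [htv2 _ _ (by simpa using hj)]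
          have h1 := hbig j
          have h2 := hxR x hx j
          have h3 := hA.1 _ (hw i) j
          refine ⟨by rw [htR]; linarith, ?_⟩
          nlinarith
      · simp
    · refine mem_iUnion₂.2 ⟨tv Z, Finset.mem_image_of_mem _ (by
        simpa using h0.ne_empty), x - tv Z, ?_, ?_⟩
      · have hz : (1 - t) • x + t • q ∈ K :=
          hKv hx hqK (by linarith) ht0.le (by ring)
        refine int_box hA hz fun j => ?_
        have e1 : (x - tv Z) j = x j - tv Z j := rfl
        have e2 : ((1 - t) • x + t • q) j = (1 - t) * x j + t * ρ := rfl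
        rw [e1, e2]
        by_cases hj : j ∈ Z
        · rw [htv1 _ _ hj]
          have := hA.1 x hx j
          have h1 : x j ≤ ρ / 2 := by
            rw [hZ] at hj; simpa using hj
          refine ⟨by linarith, ?_⟩
          nlinarith
        · rw [htv2 _ _ hj]
          have h1 : ρ / 2 < x j := by
            rw [hZ] at hj; simpa using hj
          have h2 := hxR x hx j
          refine ⟨by rw [htR]; linarith, ?_⟩
          nlinarith
      · simp

/-- all but two coordinates -/
theorem part {n : ℕ} {K : Set (Eu n)} (hK : Convex ℝ K) (hKc : IsCompact K)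
    (h : ∀ i : Fin n, 2 ≤ i.val → ∀ x ∈ K, 0 ≤ x i ∧
      x - x i • (EuclideanSpace.single i 1 : Eu n) ∈ K) :
    RCov K (2 ^ Module.finrank ℝ (vectorSpan ℝ K)) := by
  by_cases hn : n ≤ 2
  · refine base hK hKc ?_
    have := Submodule.finrank_le (vectorSpan ℝ K)
    rw [finrank_euclideanSpace, Fintype.card_fin] at this
    omega
  push Not at hn
  set G : ℕ → Set (Eu n) := fun j => {x | x ∈ K ∧ ∀ i : Fin n, j + 2 ≤ i.val → x i = 0} with hG
  have hGn : G (n - 2) = K := by
    ext x
    refine ⟨fun hx => hx.1, fun hx => ⟨hx, fun i hi => ?_⟩⟩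
    have := i.isLt
    omega
  have hconv : ∀ j, Convex ℝ (G j) := by
    intro j x hx y hy a b ha hb hab
    refine ⟨hK hx.1 hy.1 ha hb hab, fun i hi => ?_⟩
    show a * x i + b * y i = 0
    rw [hx.2 i hi, hy.2 i hi]; ring
  have hcomp : ∀ j, IsCompact (G j) := by
    intro j
    have e : G j = K ∩ ⋂ i : Fin n, ⋂ _ : j + 2 ≤ i.val, {x : Eu n | x i = 0} := by
      ext x; simp [hG]
    rw [e]
    refine hKc.inter_right (isClosed_iInter fun i => isClosed_iInter fun _ => ?_)
    exact isClosed_eq (by fun_prop) continuous_const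
  have key := tower G (n - 2) (fun i _ => hconv i) (fun i _ => hcomp i) ?_ ?_
  · rwa [hGn] at key
  · intro j hj
    have hjn : j + 2 < n := by omega
    refine ⟨EuclideanSpace.proj ⟨j + 2, hjn⟩, 0, EuclideanSpace.single ⟨j + 2, hjn⟩ 1,
      ⟨by simp, ?_, ?_⟩, ?_⟩
    · ext x
      constructor
      · rintro ⟨h1, h2⟩
        exact ⟨⟨h1, fun i hi => h2 i (by omega)⟩, h2 ⟨j + 2, hjn⟩ le_rfl⟩
      · rintro ⟨⟨h1, h2⟩, h3⟩
        refine ⟨h1, fun i hi => ?_⟩
        rcases Nat.lt_or_ge (j + 2) i.val with h4 | h4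
        · exact h2 i (by omega)
        · have : i = ⟨j + 2, hjn⟩ := Fin.ext (by simp; omega)
          rw [this]; exact h3
    · rintro x ⟨h1, h2⟩
      have h3 := (h ⟨j + 2, hjn⟩ (by simp) x h1).2
      rw [sub_zero]
      refine ⟨h3, fun i hi => ?_⟩
      have h4 : i ≠ ⟨j + 2, hjn⟩ := by
        intro h5
        rw [h5] at hi
        simp at hi
      show x i - x ⟨j + 2, hjn⟩ * (EuclideanSpace.single (⟨j + 2, hjn⟩ : Fin n) (1 : ℝ)) i = 0
      rw [h2 i hi]
      simp [h4]
    · rintro x ⟨h1, h2⟩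
      exact (h ⟨j + 2, hjn⟩ (by simp) x h1).1
  · have hle : vectorSpan ℝ (G 0) ≤ Submodule.span ℝ
        ((({EuclideanSpace.single (⟨0, by omega⟩ : Fin n) (1 : ℝ),
          EuclideanSpace.single (⟨1, by omega⟩ : Fin n) (1 : ℝ)} : Finset (Eu n))) : Set (Eu n)) := by
      rw [vectorSpan, Submodule.span_le]
      rintro _ ⟨x, hx, y, hy, rfl⟩
      rw [Finset.coe_pair, SetLike.mem_coe, Submodule.mem_span_pair]
      refine ⟨x ⟨0, by omega⟩ - y ⟨0, by omega⟩, x ⟨1, by omega⟩ - y ⟨1, by omega⟩, ?_⟩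
      ext i
      simp only [PiLp.add_apply, PiLp.smul_apply, PiLp.sub_apply, vsub_eq_sub, smul_eq_mul,
        PiLp.single_apply]
      by_cases h0 : i = ⟨0, by omega⟩
      · subst h0
        simp
      · by_cases h1 : i = ⟨1, by omega⟩
        · subst h1
          simp
        · have h2 : 2 ≤ i.val := by
            by_contra hcon
            have : i.val = 0 ∨ i.val = 1 := by omega
            rcases this with h3 | h3
            · exact h0 (Fin.ext h3)
            · exact h1 (Fin.ext h3)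
          rw [hx.2 i (by omega), hy.2 i (by omega)]
          simp [h0, h1]
    refine (Submodule.finrank_mono hle).trans ?_
    refine (finrank_span_finset_le_card _).trans ?_
    exact Finset.card_le_two

/-- the number `2 ^ n - 1` is attained -/
theorem sharp {n : ℕ} (hn : 2 ≤ n) : ∃ K : Set (Eu n), Bdy K ∧ AntiBlocking K ∧
    (¬ ∃ a : Fin n → ℝ, K = {x | ∀ i, 0 ≤ x i ∧ x i ≤ a i}) ∧
    ∀ N : ℕ, Cov K N → 2 ^ n - 1 ≤ N := by
  classical
  have hn' : (2 : ℝ) ≤ n := by exact_mod_cast hn
  set K : Set (Eu n) := {x | (∀ i, 0 ≤ x i ∧ x i ≤ 1) ∧ ∑ i, x i ≤ n - 1 / 2} with hK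
  have hA : AntiBlocking K := by
    refine ⟨fun x hx i => (hx.1 i).1, fun x hx y hy => ⟨fun i => ⟨(hy i).1,
      (hy i).2.trans (hx.1 i).2⟩, ?_⟩⟩
    exact (Finset.sum_le_sum fun i _ => (hy i).2).trans hx.2
  have hconv : Convex ℝ K := by
    intro x hx y hy a b ha hb hab
    refine ⟨fun i => ?_, ?_⟩
    · show 0 ≤ a * x i + b * y i ∧ a * x i + b * y i ≤ 1
      have h1 := hx.1 i
      have h2 := hy.1 i
      constructor
      · nlinarith
      · nlinarith
    · show ∑ i, (a * x i + b * y i) ≤ n - 1 / 2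
      rw [Finset.sum_add_distrib, ← Finset.mul_sum, ← Finset.mul_sum]
      have h1 := hx.2
      have h2 := hy.2
      nlinarith
  have hcomp : IsCompact K := by
    have e : K = (PiLp.continuousLinearEquiv 2 ℝ (fun _ : Fin n => ℝ)).toHomeomorph ⁻¹'
        (Set.univ.pi fun _ => Icc (0 : ℝ) 1) ∩ {x | ∑ i, x i ≤ n - 1 / 2} := by
      ext x
      constructor
      · rintro ⟨h1, h2⟩
        exact ⟨fun i _ => h1 i, h2⟩
      · rintro ⟨h1, h2⟩
        exact ⟨fun i => h1 i (mem_univ i), h2⟩
    rw [e]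
    refine IsCompact.inter_right ?_ ?_
    · rw [Homeomorph.isCompact_preimage]
      exact isCompact_univ_pi fun _ => isCompact_Icc
    · have hc : Continuous fun y : Eu n => ∑ i, y i := by fun_prop
      exact isClosed_le hc continuous_const
  have hz : (WithLp.toLp 2 (fun _ => 1 / 2) : Eu n) ∈ K := by
    refine ⟨fun i => ⟨by norm_num, by norm_num⟩, ?_⟩
    show ∑ _i : Fin n, (1 / 2 : ℝ) ≤ n - 1 / 2
    rw [Finset.sum_const, Finset.card_univ, Fintype.card_fin, nsmul_eq_mul]
    linarith
  have hint : (WithLp.toLp 2 (fun _ => 1 / 4) : Eu n) ∈ interior K :=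
    int_box hA hz fun i => ⟨by norm_num, by norm_num⟩
  have hv : ∀ S : Finset (Fin n), S ≠ Finset.univ →
      (WithLp.toLp 2 (fun i => if i ∈ S then (1 : ℝ) else 0) : Eu n) ∈ K := by
    intro S hS
    refine ⟨fun i => ?_, ?_⟩
    · show 0 ≤ (if i ∈ S then (1 : ℝ) else 0) ∧ (if i ∈ S then (1 : ℝ) else 0) ≤ 1
      split_ifs <;> norm_num
    · show ∑ i, (if i ∈ S then (1 : ℝ) else 0) ≤ n - 1 / 2
      rw [Finset.sum_ite_mem, Finset.univ_inter, Finset.sum_const, nsmul_eq_mul, mul_one]
      have h1 : S.card < n := by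
        obtain ⟨x, hx⟩ : ∃ x, x ∉ S := by
          by_contra hcon
          push Not at hcon
          exact hS (Finset.eq_univ_of_forall hcon)
        simpa using Finset.card_lt_univ_of_notMem hx
      have h2 : (S.card : ℝ) + 1 ≤ n := by exact_mod_cast h1
      linarith
  refine ⟨K, ⟨hconv, hcomp, ⟨_, hint⟩⟩, hA, ?_, ?_⟩
  · rintro ⟨a, ha⟩
    have h1 : ∀ i, 1 ≤ a i := by
      intro i
      have h2 : ({i} : Finset (Fin n)) ≠ Finset.univ := by
        intro h3
        have := congrArg Finset.card h3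
        rw [Finset.card_singleton, Finset.card_univ, Fintype.card_fin] at this
        omega
      have h4 := hv _ h2
      rw [ha] at h4
      have := (h4 i).2
      simpa using this
    have h2 : (WithLp.toLp 2 (fun _ => (1 : ℝ)) : Eu n) ∈ K := by
      rw [ha]
      exact fun i => ⟨by norm_num, h1 i⟩
    have h3 := h2.2
    have h4 : ∑ _i : Fin n, (1 : ℝ) ≤ n - 1 / 2 := h3
    rw [Finset.sum_const, Finset.card_univ, Fintype.card_fin, nsmul_eq_mul] at h4
    linarith
  · rintro N ⟨T, hT, hcov⟩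
    refine le_trans ?_ hT
    have h1 : ∀ S : Finset (Fin n), ∃ t ∈ T, S ≠ Finset.univ → ∃ u ∈ interior K, ∀ i,
        t i + u i = if i ∈ S then (1 : ℝ) else 0 := by
      intro S
      by_cases hS : S = Finset.univ
      · have := hcov hz
        obtain ⟨t, ht, _⟩ := mem_iUnion₂.1 this
        exact ⟨t, ht, fun h => absurd hS h⟩
      · obtain ⟨t, ht, u, hu, h2⟩ := mem_iUnion₂.1 (hcov (hv S hS))
        refine ⟨t, ht, fun _ => ⟨u, hu, fun i => ?_⟩⟩
        have := congrArg (fun y : Eu n => y i) h2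
        simpa using this
    choose f hf hf1 using h1
    have hcard : ((Finset.univ : Finset (Finset (Fin n))).erase Finset.univ).card = 2 ^ n - 1 := by
      rw [Finset.card_erase_of_mem (Finset.mem_univ _), Finset.card_univ, Fintype.card_finset,
        Fintype.card_fin]
    rw [← hcard]
    refine Finset.card_le_card_of_injOn f (fun S _ => hf S) ?_
    have key : ∀ S S' : Finset (Fin n), S ≠ Finset.univ → S' ≠ Finset.univ → f S = f S' →
        S ⊆ S' := by
      intro S S' hS hS' heq i hi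
      by_contra hcon
      obtain ⟨u, hu, h2⟩ := hf1 S hS
      obtain ⟨u', hu', h3⟩ := hf1 S' hS'
      have h4 := h2 i
      have h5 := h3 i
      rw [if_pos hi] at h4
      rw [if_neg hcon] at h5
      rw [heq] at h4
      have h6 := (interior_subset hu).1 i
      have h7 := pos_of_int hA.1 hu' i
      linarith
    intro S hS S' hS' heq
    have h2 : S ≠ Finset.univ := by simpa using hS
    have h3 : S' ≠ Finset.univ := by simpa using hS'
    exact subset_antisymm (key S S' h2 h3 heq) (key S' S h3 h2 heq.symm)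

end Pool.Agent.V11317.Had
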