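import Pool.Agent.V11317.Had.Anti
import Pool.Agent.H985.Sep

set_option autoImplicit false

/-!
Bodies in cones: the dual form of the theorems on anti-blocking bodies.
-/

open Set Topology
open scoped InnerProductSpace
open Pool.Agent.W677.Summand
open Pool.Agent.H985.Sep (polar)

namespace Pool.Agent.V11317.Had

variable {d : ℕ}

/-- `K` lies in the cone with apex `o + p i` over its section by the hyperplane through `o` spanned by the `p j`,
`j ≠ i` -/
def InCone (K : Set (Eu d)) (o : Eu d) (p : Fin d → Eu d) (i : Fin d) : Prop :=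
  o + p i ∈ K ∧ ∀ y ∈ K, ∃ z ∈ K, z - o ∈ Submodule.span ℝ (p '' {j | j ≠ i}) ∧
    ∃ s : ℝ, 0 ≤ s ∧ y = (o + p i) + s • (z - (o + p i))

/-- coordinates -/
theorem coord (p : Fin d → Eu d) (hp : LinearIndependent ℝ p) :
    ∃ A : Eu d ≃L[ℝ] Eu d, ∀ v i, A v i = ⟪v, p i⟫_ℝ := by
  obtain ⟨L, hL⟩ : ∃ L : Eu d →ₗ[ℝ] Eu d, ∀ v i, L v i = ⟪v, p i⟫_ℝ := by
    refine ⟨⟨⟨fun v => WithLp.toLp 2 fun i => ⟪v, p i⟫_ℝ, fun x y => ?_⟩, fun r x => ?_⟩,
      fun v i => rfl⟩
    · ext i
      simp [inner_add_left]
    · ext i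
      simp [real_inner_smul_left]
  have hspan : Submodule.span ℝ (range p) = ⊤ :=
    hp.span_eq_top_of_card_eq_finrank' (by simp)
  have hinj : Function.Injective L := by
    rw [← LinearMap.ker_eq_bot, LinearMap.ker_eq_bot']
    intro v hv
    have h1 : ∀ w ∈ Submodule.span ℝ (range p), ⟪v, w⟫_ℝ = 0 := by
      intro w hw
      induction hw using Submodule.span_induction with
      | mem x hx =>
        obtain ⟨i, rfl⟩ := hx
        rw [← hL, hv]
        rfl
      | zero => exact inner_zero_right _
      | add x y _ _ hx hy => rw [inner_add_right, hx, hy, add_zero]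
      | smul a x _ hx => rw [real_inner_smul_right, hx, mul_zero]
    have h2 := h1 v (by rw [hspan]; trivial)
    exact inner_self_eq_zero.1 h2
  refine ⟨(LinearEquiv.ofInjectiveEndo L hinj).toContinuousLinearEquiv, fun v i => ?_⟩
  exact hL v i

theorem bipolar {K : Set (Eu d)} (hK : Convex ℝ K) (hKc : IsCompact K) {o : Eu d} (ho : o ∈ K)
    {y : Eu d} (h : ∀ v ∈ polar K o, ⟪v, y - o⟫_ℝ ≤ 1) : y ∈ K := by
  by_contra hy
  obtain ⟨f, u, hf, hu⟩ := geometric_hahn_banach_closed_point hK hKc.isClosed hy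
  obtain ⟨w, hw⟩ : ∃ w : Eu d, ∀ x, f x = ⟪w, x⟫_ℝ :=
    ⟨(InnerProductSpace.toDual ℝ (Eu d)).symm f, fun x => by
      rw [InnerProductSpace.toDual_symm_apply]⟩
  have hc : 0 < u - f o := by
    have := hf o ho
    linarith
  have h1 := h ((u - f o)⁻¹ • w) (by
    intro a ha
    rw [real_inner_smul_left, inner_sub_right, ← hw, ← hw, inv_mul_le_iff₀ hc, mul_one]
    have := hf a ha
    linarith)
  rw [real_inner_smul_left, inner_sub_right, ← hw, ← hw, inv_mul_le_iff₀ hc, mul_one] at h1
  linarith

/-- the image of the polar body under the affine map with the coordinates `1 - ⟪v, p i⟫` -/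
def img (A : Eu d ≃L[ℝ] Eu d) (e : Eu d) (P : Set (Eu d)) : Set (Eu d) := (fun v => e - A v) '' P

theorem img_cov (A : Eu d ≃L[ℝ] Eu d) (e : Eu d) {P : Set (Eu d)} {N : ℕ} (h : Cov (img A e P) N) :
    Cov P N := by
  classical
  obtain ⟨T, hT, hcov⟩ := h
  refine ⟨T.image (fun t => -A.symm t), Finset.card_image_le.trans hT, ?_⟩
  intro v hv
  have h1 := hcov ⟨v, hv, rfl⟩
  simp only [mem_iUnion, exists_prop] at h1
  obtain ⟨t, ht, z, hz, hzt⟩ := h1
  have hint : interior (img A e P) = img A e (interior P) := by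
    unfold img
    exact ((A.toHomeomorph.trans (Homeomorph.subLeft e)).image_interior P).symm
  rw [hint] at hz
  obtain ⟨w, hw, rfl⟩ := hz
  simp only [mem_iUnion, exists_prop]
  refine ⟨-A.symm t, Finset.mem_image_of_mem _ ht, w, hw, ?_⟩
  simp only at hzt ⊢
  apply A.injective
  rw [map_add, map_neg, A.apply_symm_apply]
  have h2 : A v = e - (t + (e - A w)) := by rw [hzt]; abel
  rw [h2]
  abel

theorem img_body (A : Eu d ≃L[ℝ] Eu d) (e : Eu d) {P : Set (Eu d)} (hP : Bdy P) :
    Bdy (img A e P) := by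
  obtain ⟨h1, h2, h3⟩ := hP
  refine ⟨?_, h2.image (by fun_prop), ?_⟩
  · rintro _ ⟨v, hv, rfl⟩ _ ⟨w, hw, rfl⟩ a b ha hb hab
    refine ⟨a • v + b • w, h1 hv hw ha hb hab, ?_⟩
    simp only [map_add, map_smul, smul_sub]
    have h4 : e = a • e + b • e := by rw [← add_smul, hab, one_smul]
    nth_rewrite 1 [h4]
    abel
  · have hint : interior (img A e P) = img A e (interior P) := by
      unfold img
      exact ((A.toHomeomorph.trans (Homeomorph.subLeft e)).image_interior P).symm
    rw [hint]
    exact h3.image _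

/-- the all-one vector -/
noncomputable def ones : Eu d := WithLp.toLp 2 fun _ => 1

theorem lower {K : Set (Eu d)} {o : Eu d} {p : Fin d → Eu d} {i : Fin d} (h : InCone K o p i)
    (A : Eu d ≃L[ℝ] Eu d) (hA : ∀ v i, A v i = ⟪v, p i⟫_ℝ) :
    ∀ x ∈ img A ones (polar K o), 0 ≤ x i ∧
      x - x i • (EuclideanSpace.single i 1 : Eu d) ∈ img A ones (polar K o) := by
  rintro _ ⟨v, hv, rfl⟩
  have e0 : (ones - A v : Eu d) i = 1 - ⟪v, p i⟫_ℝ := by
    rw [← hA]
    rfl
  have h0 : ⟪v, p i⟫_ℝ ≤ 1 := by
    have := hv _ h.1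
    rwa [add_sub_cancel_left] at this
  refine ⟨by simp only [e0]; linarith, ?_⟩
  obtain ⟨c, hc⟩ : ∃ c : ℝ, c = 1 - ⟪v, p i⟫_ℝ := ⟨_, rfl⟩
  simp only [e0]
  rw [← hc]
  obtain ⟨w, hw⟩ : ∃ w : Eu d, A w = EuclideanSpace.single i 1 := ⟨A.symm _, A.apply_symm_apply _⟩
  have hwj : ∀ j, ⟪w, p j⟫_ℝ = if j = i then 1 else 0 := by
    intro j
    rw [← hA, hw]
    simp
  refine ⟨v + c • w, ?_, ?_⟩
  · intro y hy
    obtain ⟨z, hz, hzs, s, hs, rfl⟩ := h.2 y hy
    have h1 : ⟪w, z - o⟫_ℝ = 0 := by
      have h2 : ∀ u ∈ Submodule.span ℝ (p '' {j | j ≠ i}), ⟪w, u⟫_ℝ = 0 := by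
        intro u hu
        induction hu using Submodule.span_induction with
        | mem x hx =>
          obtain ⟨j, hj, rfl⟩ := hx
          rw [hwj, if_neg hj]
        | zero => exact inner_zero_right _
        | add x y _ _ hx hy => rw [inner_add_right, hx, hy, add_zero]
        | smul a x _ hx => rw [real_inner_smul_right, hx, mul_zero]
      exact h2 _ hzs
    have h3 := hv z hz
    have h4 := hwj i
    rw [if_pos rfl] at h4
    have e1 : o + p i + s • (z - (o + p i)) - o = p i + s • ((z - o) - p i) := by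
      rw [sub_sub]
      abel
    rw [e1, inner_add_right, real_inner_smul_right, inner_sub_right, inner_add_left, inner_add_left,
      real_inner_smul_left, real_inner_smul_left, h1, h4]
    nlinarith
  · simp only [map_add, map_smul, hw]
    abel

/-- lowering the coordinates one after the other -/
theorem anti_of_lower {L : Set (Eu d)} (hL : Convex ℝ L)
    (h : ∀ i, ∀ x ∈ L, 0 ≤ x i ∧ x - x i • (EuclideanSpace.single i 1 : Eu d) ∈ L) :
    AntiBlocking L := by
  classical
  refine ⟨fun x hx i => (h i x hx).1, fun x hx y hy => ?_⟩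
  have key : ∀ S : Finset (Fin d), (WithLp.toLp 2 fun i => if i ∈ S then y i else x i : Eu d) ∈ L := by
    intro S
    induction S using Finset.induction_on with
    | empty => simpa using hx
    | insert i S hi ih =>
      obtain ⟨z, hz⟩ : ∃ z : Eu d, z = WithLp.toLp 2 fun i => if i ∈ S then y i else x i := ⟨_, rfl⟩
      rw [← hz] at ih
      have hzi : z i = x i := by
        rw [hz]
        simp [hi]
      obtain ⟨-, h2⟩ := h i z ih
      have hy0 := (hy i).1
      have hyx := (hy i).2
      rcases eq_or_lt_of_le (hy0.trans hyx) with hx0 | hx0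
      · have hyi : y i = x i := le_antisymm hyx (by rw [← hx0]; exact hy0)
        convert ih using 1
        rw [hz]
        ext j
        by_cases hj : j = i
        · subst hj
          simp [hi, hyi]
        · simp [hj]
      · have h3 := hL ih h2 (a := y i / x i) (b := 1 - y i / x i) (by positivity)
          (by rw [sub_nonneg, div_le_one hx0]; exact hyx) (by ring)
        convert h3 using 1
        ext j
        have e3 : (WithLp.toLp 2 fun k => if k ∈ insert i S then y k else x k : Eu d) j =
            if j = i then y j else z j := by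
          rw [hz]
          by_cases hj : j = i
          · simp [hj]
          · simp [hj]
        rw [e3]
        by_cases hj : j = i
        · subst hj
          have e1 : (y j / x j) * x j = y j := div_mul_cancel₀ _ hx0.ne'
          simp [hzi, e1]
        · simp [hj]
          ring
  have := key Finset.univ
  simpa using this

end Pool.Agent.V11317.Had
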