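import Pool.Agent.V11317.Had.Dual

set_option autoImplicit false

/-!
Bodies in cones: cross-bodies.
-/

open Set Topology
open scoped InnerProductSpace
open Pool.Agent.W677.Summand
open Pool.Agent.H985.Sep (polar)

namespace Pool.Agent.V11317.Had

variable {d : ℕ}

theorem cross_of_box (hd : 1 ≤ d) {K : Set (Eu d)} (hK : Convex ℝ K) (hKc : IsCompact K) {o : Eu d}
    (ho : o ∈ K) (p : Fin d → Eu d) (hp : LinearIndependent ℝ p) (A : Eu d ≃L[ℝ] Eu d)
    (hA : ∀ v i, A v i = ⟪v, p i⟫_ℝ) (hpK : ∀ i, o + p i ∈ K) (a : Fin d → ℝ)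
    (hbox : img A ones (polar K o) = {x | ∀ i, 0 ≤ x i ∧ x i ≤ a i}) :
    ∃ t : Fin d → ℝ, (∀ i, 0 < t i) ∧
      K = convexHull ℝ (range (fun i => o + p i) ∪ range (fun i => o - t i • p i)) := by
  classical
  have hmem : ∀ v, v ∈ polar K o ↔ ∀ i, 1 - a i ≤ ⟪v, p i⟫_ℝ ∧ ⟪v, p i⟫_ℝ ≤ 1 := by
    intro v
    have h1 : v ∈ polar K o ↔ (ones - A v : Eu d) ∈ img A ones (polar K o) := by
      constructor
      · intro hv
        exact ⟨v, hv, rfl⟩
      · rintro ⟨w, hw, hwv⟩
        have h2 : A w = A v := sub_right_injective hwv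
        rwa [A.injective h2] at hw
    rw [h1, hbox, mem_setOf_eq]
    refine forall_congr' fun i => ?_
    have e0 : (ones - A v : Eu d) i = 1 - ⟪v, p i⟫_ℝ := by
      rw [← hA]
      rfl
    rw [e0]
    constructor
    · rintro ⟨h2, h3⟩
      constructor <;> linarith
    · rintro ⟨h2, h3⟩
      constructor <;> linarith
  obtain ⟨R, hR⟩ := (hKc.image (by fun_prop : Continuous fun y => y - o)).isBounded.exists_norm_le
  have ha : ∀ i, 1 < a i := by
    intro i
    obtain ⟨w, hw⟩ : ∃ w : Eu d, A w = EuclideanSpace.single i 1 := ⟨A.symm _, A.apply_symm_apply _⟩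
    obtain ⟨ε, hε⟩ : ∃ ε : ℝ, ε = 1 / ((|R| + 1) * (‖w‖ + 1)) := ⟨_, rfl⟩
    have hε0 : 0 < ε := by rw [hε]; positivity
    have h1 : -(ε • w) ∈ polar K o := by
      intro y hy
      refine (real_inner_le_norm _ _).trans ?_
      rw [norm_neg, norm_smul, Real.norm_eq_abs, abs_of_pos hε0]
      have h2 : ‖y - o‖ ≤ |R| + 1 := by
        have := hR _ ⟨y, hy, rfl⟩
        have h3 := le_abs_self R
        simp only at this
        linarith
      calc ε * ‖w‖ * ‖y - o‖ ≤ ε * (‖w‖ + 1) * (|R| + 1) := by gcongr; linarith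
        _ = 1 := by rw [hε]; field_simp
    have h2 := ((hmem _).1 h1 i).1
    rw [inner_neg_left, real_inner_smul_left] at h2
    have h3 : ⟪w, p i⟫_ℝ = 1 := by
      rw [← hA, hw]
      simp
    rw [h3] at h2
    linarith
  refine ⟨fun i => 1 / (a i - 1), fun i => by have := ha i; apply one_div_pos.2; linarith, ?_⟩
  have hneg : ∀ i, o - (1 / (a i - 1)) • p i ∈ K := by
    intro i
    refine bipolar hK hKc ho fun v hv => ?_
    have h1 := ((hmem v).1 hv i).1
    have h2 : 0 < a i - 1 := by have := ha i; linarith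
    rw [sub_sub_cancel_left, inner_neg_right, real_inner_smul_right, one_div,
      neg_le, ← div_eq_inv_mul, le_div_iff₀ h2]
    linarith
  apply Subset.antisymm
  · intro y hy
    obtain ⟨S, hS⟩ : ∃ S : Set (Eu d), S = convexHull ℝ (range (fun i => o + p i) ∪
      range (fun i => o - (1 / (a i - 1)) • p i)) := ⟨_, rfl⟩
    have hSc : Convex ℝ S := by rw [hS]; exact convex_convexHull _ _
    have hS1 : ∀ i, o + p i ∈ S := fun i => by
      rw [hS]; exact subset_convexHull _ _ (Or.inl ⟨i, rfl⟩)
    have hS2 : ∀ i, o - (1 / (a i - 1)) • p i ∈ S := fun i => by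
      rw [hS]; exact subset_convexHull _ _ (Or.inr ⟨i, rfl⟩)
    rw [← hS]
    have hoS : o ∈ S := by
      obtain ⟨i⟩ : Nonempty (Fin d) := ⟨⟨0, hd⟩⟩
      obtain ⟨τ, hτ⟩ : ∃ τ : ℝ, τ = 1 / (a i - 1) := ⟨_, rfl⟩
      have hτ0 : 0 < τ := by
        rw [hτ]
        have := ha i
        apply one_div_pos.2
        linarith
      have h1 := hSc (hS1 i) (hS2 i) (a := τ / (1 + τ)) (b := 1 / (1 + τ)) (by positivity)
        (by positivity) (by field_simp; ring)
      rw [← hτ] at h1
      convert h1 using 1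
      rw [smul_add, smul_sub, smul_smul]
      have e1 : 1 / (1 + τ) * τ = τ / (1 + τ) := by ring
      rw [e1]
      have e2 : o = (τ / (1 + τ)) • o + (1 / (1 + τ)) • o := by
        rw [← add_smul]
        have : τ / (1 + τ) + 1 / (1 + τ) = 1 := by field_simp; ring
        rw [this, one_smul]
      nth_rewrite 1 [e2]
      abel
    have hspan : Submodule.span ℝ (range p) = ⊤ :=
      hp.span_eq_top_of_card_eq_finrank' (by simp)
    obtain ⟨η, hη⟩ : ∃ η : Fin d → ℝ, ∑ i, η i • p i = y - o := by
      have : y - o ∈ Submodule.span ℝ (range p) := by rw [hspan]; trivial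
      exact (Submodule.mem_span_range_iff_exists_fun ℝ).1 this
    obtain ⟨v, hv⟩ : ∃ v : Eu d, A v = WithLp.toLp 2 fun i => if 0 ≤ η i then 1 else 1 - a i :=
      ⟨A.symm _, A.apply_symm_apply _⟩
    have hvi : ∀ i, ⟪v, p i⟫_ℝ = if 0 ≤ η i then 1 else 1 - a i := fun i => by
      rw [← hA, hv]
    have hvP : v ∈ polar K o := by
      rw [hmem]
      intro i
      have := ha i
      rw [hvi]
      split_ifs
      · constructor <;> linarith
      · constructor <;> linarith
    have h1 := hvP y hy
    rw [← hη, inner_sum] at h1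
    simp only [real_inner_smul_right, hvi] at h1
    obtain ⟨θ, hθ⟩ : ∃ θ : Fin d → ℝ, θ = fun i => η i * (if 0 ≤ η i then 1 else 1 - a i) := ⟨_, rfl⟩
    have hθ0 : ∀ i, 0 ≤ θ i := by
      intro i
      have := ha i
      rw [hθ]
      simp only
      split_ifs with h
      · linarith
      · push Not at h
        exact mul_nonneg_of_nonpos_of_nonpos h.le (by linarith)
    obtain ⟨q, hq⟩ : ∃ q : Fin d → Eu d, q = fun i => if 0 ≤ η i then p i else -((1 / (a i - 1)) • p i) :=
      ⟨_, rfl⟩
    have hqS : ∀ i, o + q i ∈ S := by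
      intro i
      rw [hq]
      simp only
      split_ifs
      · exact hS1 i
      · rw [← sub_eq_add_neg]
        exact hS2 i
    have hθq : ∀ i, θ i • q i = η i • p i := by
      intro i
      have := ha i
      rw [hθ, hq]
      simp only
      split_ifs
      · rw [mul_one]
      · rw [smul_neg, smul_smul, ← neg_smul]
        congr 1
        have : a i - 1 ≠ 0 := by linarith
        field_simp
        ring
    have hsum : ∑ i, θ i ≤ 1 := by
      rw [hθ]
      exact h1
    have h2 := hSc.sum_mem (t := (Finset.univ : Finset (Option (Fin d))))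
      (w := fun j => j.elim (1 - ∑ i, θ i) θ) (z := fun j => j.elim o fun i => o + q i)
      (by
        rintro (_ | i) -
        · simpa using hsum
        · exact hθ0 i)
      (by
        rw [Fintype.sum_option]
        simp)
      (by
        rintro (_ | i) -
        · exact hoS
        · exact hqS i)
    rw [Fintype.sum_option] at h2
    simp only [Option.elim_none, Option.elim_some, smul_add, Finset.sum_add_distrib, hθq, hη] at h2
    rw [← Finset.sum_smul, sub_smul, one_smul] at h2
    convert h2 using 1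
    abel
  · refine convexHull_min ?_ hK
    rintro _ (⟨i, rfl⟩ | ⟨i, rfl⟩)
    · exact hpK i
    · exact hneg i

end Pool.Agent.V11317.Had
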