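import Pool.Agent.V11317.Had.Aff

set_option autoImplicit false

/-!
Covering numbers of convex hulls of unions.
-/

open Set Topology

namespace Pool.Agent.V11317.Had

variable {E : Type*} [NormedAddCommGroup E] [NormedSpace ℝ E]

/-- moving from the relative interior of a subset into the relative interior -/
theorem into {K A : Set E} (hK : Convex ℝ K) (hAK : A ⊆ K) {q y0 : E}
    (hq : q ∈ intrinsicInterior ℝ K) (hy0 : y0 ∈ A) {y : E} (hy : y ∈ intrinsicInterior ℝ A) :
    ∃ β : ℝ, 0 < β ∧ y + β • (q - y0) ∈ intrinsicInterior ℝ K := by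
  obtain ⟨η, hη, h1⟩ := extend hy hy0
  have h2 := combo hK (hAK h1) hq (t := η / (1 + η)) (by positivity)
    ((div_le_one (by positivity)).2 (by linarith))
  refine ⟨η / (1 + η), by positivity, ?_⟩
  convert h2 using 1
  have e1 : 1 - η / (1 + η) = (1 + η)⁻¹ := by field_simp; ring
  have e2 : y + η • (y - y0) = (1 + η) • y - η • y0 := by module
  have e3 : (1 + η)⁻¹ • ((1 + η) • y - η • y0) = y - (η / (1 + η)) • y0 := by
    rw [smul_sub, inv_smul_smul₀ (by positivity), smul_smul, div_eq_inv_mul]
  rw [e1, e2, e3, smul_sub]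
  abel

/-- the points of the convex hull of a finite union of convex sets -/
theorem hull_rep {ι : Type*} [Fintype ι] (A : ι → Set E) (hne : ∀ i, (A i).Nonempty)
    (hconv : ∀ i, Convex ℝ (A i)) {x : E} (hx : x ∈ convexHull ℝ (⋃ i, A i)) :
    ∃ (w : ι → ℝ) (a : ι → E), (∀ i, 0 ≤ w i) ∧ ∑ i, w i = 1 ∧ (∀ i, a i ∈ A i) ∧
      ∑ i, w i • a i = x := by
  classical
  have key : convexHull ℝ (⋃ i, A i) ⊆ {x | ∃ (w : ι → ℝ) (a : ι → E), (∀ i, 0 ≤ w i) ∧
      ∑ i, w i = 1 ∧ (∀ i, a i ∈ A i) ∧ ∑ i, w i • a i = x} := by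
    refine convexHull_min ?_ ?_
    · intro y hy
      obtain ⟨i, hi⟩ := mem_iUnion.1 hy
      choose c hc using hne
      refine ⟨Pi.single i 1, Function.update c i y, fun j => ?_, ?_, fun j => ?_, ?_⟩
      · rw [Pi.single_apply]; split_ifs <;> norm_num
      · simp
      · by_cases h : j = i
        · subst h; simpa using hi
        · rw [Function.update_of_ne h]; exact hc j
      · rw [Finset.sum_eq_single i]
        · simp
        · intro j _ hj
          rw [Pi.single_eq_of_ne hj, zero_smul]
        · intro h; exact absurd (Finset.mem_univ i) h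
    · rintro _ ⟨w, a, hw, hws, ha, rfl⟩ _ ⟨w', a', hw', hws', ha', rfl⟩ p q hp hq hpq
      refine ⟨fun i => p * w i + q * w' i, fun i => if p * w i + q * w' i = 0 then a i else
        (p * w i / (p * w i + q * w' i)) • a i + (q * w' i / (p * w i + q * w' i)) • a' i,
        fun i => ?_, ?_, fun i => ?_, ?_⟩
      · have h1 := hw i
        have h2 := hw' i
        positivity
      · rw [Finset.sum_add_distrib, ← Finset.mul_sum, ← Finset.mul_sum, hws, hws']
        linarith
      · have h1 := mul_nonneg hp (hw i)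
        have h2 := mul_nonneg hq (hw' i)
        simp only
        split_ifs with h
        · exact ha i
        · have h3 : 0 < p * w i + q * w' i := lt_of_le_of_ne (by positivity) (Ne.symm h)
          exact hconv i (ha i) (ha' i) (by positivity) (by positivity) (by
            rw [← add_div, div_self h])
      · rw [Finset.smul_sum, Finset.smul_sum, ← Finset.sum_add_distrib]
        refine Finset.sum_congr rfl fun i _ => ?_
        have h1 := mul_nonneg hp (hw i)
        have h2 := mul_nonneg hq (hw' i)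
        simp only
        split_ifs with h
        · have h3 : p * w i = 0 := by linarith
          have h4 : q * w' i = 0 := by linarith
          rw [h, smul_smul, smul_smul, h3, h4]
          simp
        · rw [smul_add, smul_smul, smul_smul, mul_div_cancel₀ _ h, mul_div_cancel₀ _ h, smul_smul,
            smul_smul]
  exact key hx

/-- **Subadditivity.** -/
theorem hull {ι : Type*} [Fintype ι] (A : ι → Set E) (hne : ∀ i, (A i).Nonempty)
    (hconv : ∀ i, Convex ℝ (A i)) (hcomp : ∀ i, IsCompact (A i))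
    (hri : (convexHull ℝ (⋃ i, A i)).Nonempty →
      (intrinsicInterior ℝ (convexHull ℝ (⋃ i, A i))).Nonempty) (N : ι → ℕ)
    (hN : ∀ i, RCov (A i) (N i)) : RCov (convexHull ℝ (⋃ i, A i)) (∑ i, N i) := by
  classical
  set K := convexHull ℝ (⋃ i, A i) with hKdef
  rcases K.eq_empty_or_nonempty with h0 | h0
  · rw [h0]; exact empty_cov _
  have hK : Convex ℝ K := convex_convexHull ℝ _
  obtain ⟨q, hq⟩ := hri h0
  have hAK : ∀ i, A i ⊆ K := fun i => (subset_iUnion A i).trans (subset_convexHull ℝ _)
  have key : ∀ i, ∃ (T : Finset E) (u : E), T.card ≤ N i ∧ ∀ y ∈ A i, ∃ t ∈ T,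
      y - t + u ∈ intrinsicInterior ℝ K := by
    intro i
    obtain ⟨y0, hy0⟩ := hne i
    obtain ⟨T, hT, h1⟩ := hN i
    have h2 := fun z hz => into hK (hAK i) hq hy0 (y := z) hz
    obtain ⟨β, hβ, h3⟩ := uniform hK (hAK i) (hcomp i) T h1 (q - y0) (q - y0) h2 h2
    refine ⟨T, β • (q - y0), hT, fun y hy => ?_⟩
    obtain ⟨t, ht, -, h4, -⟩ := h3 y hy
    exact ⟨t, ht, h4⟩
  choose T u hT hu using key
  set m : ℝ := (Fintype.card ι : ℝ) + 1 with hm
  have hm0 : 0 < m := by positivity
  set s : ℝ := m⁻¹ with hs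
  have hs0 : 0 < s := by positivity
  obtain ⟨x0, hx0⟩ := h0
  have hι : Nonempty ι := by
    by_contra hcon
    rw [not_nonempty_iff] at hcon
    rw [hKdef] at hx0
    simp at hx0
  have hcard : (1 : ℝ) ≤ Fintype.card ι := by
    exact_mod_cast Fintype.card_pos
  have hs1 : s < 1 := by
    rw [hs]
    exact inv_lt_one_of_one_lt₀ (by linarith)
  refine ⟨Finset.univ.biUnion fun i => (T i).image fun t => s • (t - u i), ?_, ?_⟩
  · refine Finset.card_biUnion_le.trans (Finset.sum_le_sum fun i _ => ?_)
    exact Finset.card_image_le.trans (hT i)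
  · intro x hx
    obtain ⟨w, a, hw, hws, ha, rfl⟩ := hull_rep A hne hconv hx
    obtain ⟨i, hi⟩ : ∃ i, s ≤ w i := by
      by_contra hcon
      push Not at hcon
      have h1 : ∑ i, w i < ∑ _i : ι, s :=
        Finset.sum_lt_sum_of_nonempty Finset.univ_nonempty fun i _ => hcon i
      rw [hws, Finset.sum_const, Finset.card_univ, nsmul_eq_mul, hs] at h1
      have h2 : (Fintype.card ι : ℝ) * m⁻¹ < 1 := by
        rw [← div_eq_mul_inv, div_lt_one hm0]
        linarith
      linarith
    obtain ⟨t, ht, h1⟩ := hu i (a i) (ha i)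
    have hp : ∑ j, ((w j - if j = i then s else 0) / (1 - s)) • a j ∈ K := by
      refine hK.sum_mem (fun j _ => ?_) ?_ fun j _ => hAK j (ha j)
      · refine div_nonneg ?_ (by linarith)
        split_ifs with h
        · rw [h]; linarith
        · linarith [hw j]
      · rw [← Finset.sum_div, Finset.sum_sub_distrib, hws, Finset.sum_ite_eq' Finset.univ i,
          if_pos (Finset.mem_univ i), div_self (by linarith)]
    have h2 := combo hK hp h1 hs0 hs1.le
    refine mem_iUnion₂.2 ⟨s • (t - u i), Finset.mem_biUnion.2 ⟨i, Finset.mem_univ i,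
      Finset.mem_image_of_mem _ ht⟩, _, h2, ?_⟩
    simp only
    have h3 : (1 - s) • ∑ j, ((w j - if j = i then s else 0) / (1 - s)) • a j =
        ∑ j, w j • a j - s • a i := by
      rw [Finset.smul_sum]
      have h4 : ∀ j, (1 - s) • ((w j - if j = i then s else 0) / (1 - s)) • a j =
          w j • a j - (if j = i then s • a j else 0) := by
        intro j
        rw [smul_smul, mul_div_cancel₀ _ (by linarith : (1 - s) ≠ 0), sub_smul]
        split_ifs <;> simp
      simp only [h4]
      rw [Finset.sum_sub_distrib, Finset.sum_ite_eq' Finset.univ i, if_pos (Finset.mem_univ i)]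
    rw [h3]
    module

/-- the hull of a finite union of compact convex sets is compact -/
theorem hull_compact {ι : Type*} [Fintype ι] (A : ι → Set E) (hne : ∀ i, (A i).Nonempty)
    (hconv : ∀ i, Convex ℝ (A i)) (hcomp : ∀ i, IsCompact (A i)) :
    IsCompact (convexHull ℝ (⋃ i, A i)) := by
  have h1 : convexHull ℝ (⋃ i, A i) = (fun p : (ι → ℝ) × (ι → E) => ∑ i, p.1 i • p.2 i) ''
      (stdSimplex ℝ ι ×ˢ Set.univ.pi A) := by
    ext x
    constructor
    · intro hx
      obtain ⟨w, a, hw, hws, ha, rfl⟩ := hull_rep A hne hconv hx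
      exact ⟨(w, a), ⟨⟨hw, hws⟩, fun i _ => ha i⟩, rfl⟩
    · rintro ⟨⟨w, a⟩, ⟨⟨hw, hws⟩, ha⟩, rfl⟩
      exact (convex_convexHull ℝ _).sum_mem (fun i _ => hw i) hws fun i _ =>
        subset_convexHull ℝ _ (mem_iUnion.2 ⟨i, ha i (mem_univ i)⟩)
  rw [h1]
  refine ((isCompact_stdSimplex ℝ ι).prod (isCompact_univ_pi hcomp)).image ?_
  fun_prop

end Pool.Agent.V11317.Had
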