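import Pool.Agent.V11317.Had.Join

set_option autoImplicit false

/-!
Convex hulls of unions, consequences in Euclidean spaces.
-/

open Set Topology
open Pool.Agent.W677.Summand

namespace Pool.Agent.V11317.Had

/-- empty sets are allowed -/
theorem hull' {E : Type*} [NormedAddCommGroup E] [NormedSpace ℝ E]
    {ι : Type*} [Fintype ι] (A : ι → Set E)
    (hconv : ∀ i, Convex ℝ (A i)) (hcomp : ∀ i, IsCompact (A i))
    (hri : (convexHull ℝ (⋃ i, A i)).Nonempty →
      (intrinsicInterior ℝ (convexHull ℝ (⋃ i, A i))).Nonempty) (N : ι → ℕ)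
    (hN : ∀ i, RCov (A i) (N i)) : RCov (convexHull ℝ (⋃ i, A i)) (∑ i, N i) ∧
      IsCompact (convexHull ℝ (⋃ i, A i)) := by
  classical
  set J := {i : ι // (A i).Nonempty} with hJ
  have hU : (⋃ j : J, A j) = ⋃ i, A i := by
    ext x
    constructor
    · intro hx
      obtain ⟨j, hj⟩ := mem_iUnion.1 hx
      exact mem_iUnion.2 ⟨j, hj⟩
    · intro hx
      obtain ⟨i, hi⟩ := mem_iUnion.1 hx
      exact mem_iUnion.2 ⟨⟨i, ⟨x, hi⟩⟩, hi⟩
  have h1 := hull (fun j : J => A j) (fun j => j.2) (fun j => hconv j) (fun j => hcomp j)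
    (by rw [hU]; exact hri) (fun j => N j) (fun j => hN j)
  have h2 := hull_compact (fun j : J => A j) (fun j => j.2) (fun j => hconv j) (fun j => hcomp j)
  rw [hU] at h1 h2
  refine ⟨h1.mono ?_, h2⟩
  have h3 : ∑ j : J, N j = ∑ i ∈ Finset.univ.filter (fun i => (A i).Nonempty), N i := by
    rw [Finset.sum_subtype (Finset.univ.filter fun i => (A i).Nonempty) (p := fun i => (A i).Nonempty)
      (by simp) N]
  rw [h3]
  exact Finset.sum_le_sum_of_subset (Finset.filter_subset _ _)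

/-- a set in its own span -/
theorem base' {n : ℕ} {A : Set (Eu n)} (hA : Convex ℝ A) (hAc : IsCompact A)
    (h : ∀ K' : Set (Eu (Module.finrank ℝ (vectorSpan ℝ A))), Bdy K' →
      Cov K' (2 ^ Module.finrank ℝ (vectorSpan ℝ A))) :
    RCov A (2 ^ Module.finrank ℝ (vectorSpan ℝ A)) := by
  rcases A.eq_empty_or_nonempty with h0 | ⟨a₀, ha⟩
  · rw [h0]; exact empty_cov _
  obtain ⟨ι, hι⟩ := coords (vectorSpan ℝ A) (k := Module.finrank ℝ (vectorSpan ℝ A)) rfl
  exact rel_of_cov hι ha (h _ ⟨Lset_convex hA, Lset_compact (fun x hx => (hι x).1 hx) ha hAc,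
      Lset_int hι ha hA⟩)

theorem body_hull {n : ℕ} {ι : Type*} [Fintype ι] {K : Set (Eu n)} (hK : Bdy K)
    (A : ι → Set (Eu n)) (hA : ∀ i, Convex ℝ (A i) ∧ IsCompact (A i))
    (hKA : K = convexHull ℝ (⋃ i, A i)) (N : ι → ℕ) (hN : ∀ i, RCov (A i) (N i)) {M : ℕ}
    (hM : ∑ i, N i ≤ M) : Cov K M := by
  have h1 := (hull' A (fun i => (hA i).1) (fun i => (hA i).2)
    (fun h => h.intrinsicInterior (convex_convexHull ℝ _)) N hN).1
  rw [← hKA] at h1
  exact cov_of_rcov hK.1 hK.2.2 (h1.mono hM)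

/-- bodies whose extreme points lie in finitely many flats -/
theorem flats {n : ℕ} {ι : Type*} [Fintype ι] {K : Set (Eu n)} (hK : Bdy K)
    (U : ι → AffineSubspace ℝ (Eu n)) (hU : K.extremePoints ℝ ⊆ ⋃ i, (U i : Set (Eu n))) :
    K = convexHull ℝ (⋃ i, K ∩ U i) ∧ ∀ i, Convex ℝ (K ∩ U i) ∧ IsCompact (K ∩ U i) := by
  have hA : ∀ i, Convex ℝ (K ∩ U i) ∧ IsCompact (K ∩ U i) := fun i =>
    ⟨hK.1.inter (U i).convex, hK.2.1.inter_right (U i).closed_of_finiteDimensional⟩
  refine ⟨subset_antisymm ?_ ?_, hA⟩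
  · have hc : IsCompact (convexHull ℝ (⋃ i, K ∩ U i)) := by
      classical
      set J := {i : ι // (K ∩ (U i : Set (Eu n))).Nonempty} with hJ
      have hU : (⋃ j : J, K ∩ (U j : Set (Eu n))) = ⋃ i, K ∩ (U i : Set (Eu n)) := by
        ext x
        constructor
        · intro hx
          obtain ⟨j, hj⟩ := mem_iUnion.1 hx
          exact mem_iUnion.2 ⟨j, hj⟩
        · intro hx
          obtain ⟨i, hi⟩ := mem_iUnion.1 hx
          exact mem_iUnion.2 ⟨⟨i, ⟨x, hi⟩⟩, hi⟩
      rw [← hU]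
      exact hull_compact (fun j : J => K ∩ (U j : Set (Eu n))) (fun j => j.2)
        (fun j => (hA j).1) (fun j => (hA j).2)
    have h1 := closure_convexHull_extremePoints hK.2.1 hK.1
    nth_rewrite 1 [← h1]
    refine closure_minimal (convexHull_mono fun x hx => ?_) hc.isClosed
    obtain ⟨i, hi⟩ := mem_iUnion.1 (hU hx)
    exact mem_iUnion.2 ⟨i, extremePoints_subset hx, hi⟩
  · refine convexHull_min (iUnion_subset fun i => inter_subset_left) hK.1

theorem flats_two {n : ℕ} {ι : Type*} [Fintype ι] {K : Set (Eu n)} (hK : Bdy K)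
    (U : ι → AffineSubspace ℝ (Eu n)) (hU : K.extremePoints ℝ ⊆ ⋃ i, (U i : Set (Eu n)))
    (h2 : ∀ i, Module.finrank ℝ (U i).direction ≤ 2)
    (hs : ∑ i, 2 ^ Module.finrank ℝ (U i).direction ≤ 2 ^ n) : Cov K (2 ^ n) := by
  obtain ⟨h1, hA⟩ := flats hK U hU
  refine body_hull hK (fun i => K ∩ U i) hA h1 (fun i => 2 ^ Module.finrank ℝ (U i).direction)
    (fun i => ?_) hs
  have h3 : Module.finrank ℝ (vectorSpan ℝ (K ∩ (U i : Set (Eu n)))) ≤
      Module.finrank ℝ (U i).direction := by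
    refine Submodule.finrank_mono ?_
    rw [AffineSubspace.direction]
    exact vectorSpan_mono ℝ inter_subset_right
  exact (base (hA i).1 (hA i).2 (h3.trans (h2 i))).mono (Nat.pow_le_pow_right (by norm_num) h3)

end Pool.Agent.V11317.Had
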