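import Pool.Agent.V11317.Had.Hull

set_option autoImplicit false

/-!
Joins: the covering number is additive.
-/

open Set Topology

namespace Pool.Agent.V11317.Had

variable {E : Type*} [NormedAddCommGroup E] [NormedSpace ℝ E]

/-- the two sets lie in different parallel hyperplanes, and their directions are independent -/
def Skew (A B : Set E) (φ : E →L[ℝ] ℝ) (c0 c1 : ℝ) : Prop :=
  c0 ≠ c1 ∧ (∀ x ∈ A, φ x = c0) ∧ (∀ x ∈ B, φ x = c1) ∧
    Disjoint (vectorSpan ℝ A) (vectorSpan ℝ B)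

theorem Skew.symm {A B : Set E} {φ : E →L[ℝ] ℝ} {c0 c1 : ℝ} (h : Skew A B φ c0 c1) :
    Skew B A φ c1 c0 := ⟨h.1.symm, h.2.2.1, h.2.1, h.2.2.2.symm⟩

theorem join_mem {A B : Set E} (hA : Convex ℝ A) (hB : Convex ℝ B) (hAn : A.Nonempty)
    (hBn : B.Nonempty) {z : E} : z ∈ convexHull ℝ (A ∪ B) ↔
      ∃ a ∈ A, ∃ b ∈ B, ∃ l : ℝ, 0 ≤ l ∧ l ≤ 1 ∧ z = (1 - l) • a + l • b := by
  rw [convexHull_union hAn hBn, hA.convexHull_eq, hB.convexHull_eq, mem_convexJoin]
  constructor
  · rintro ⟨a, ha, b, hb, p, q, hp, hq, hpq, rfl⟩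
    refine ⟨a, ha, b, hb, q, hq, by linarith, ?_⟩
    have : p = 1 - q := by linarith
    rw [this]
  · rintro ⟨a, ha, b, hb, l, h0, h1, rfl⟩
    exact ⟨a, ha, b, hb, 1 - l, l, by linarith, h0, by ring, rfl⟩

theorem diff_mem {A : Set E} {a b : E} (ha : a ∈ A) (hb : b ∈ A) : a - b ∈ vectorSpan ℝ A :=
  vsub_mem_vectorSpan ℝ ha hb

/-- the two components of a point of the join -/
theorem skew_unique {A B : Set E} {φ : E →L[ℝ] ℝ} {c0 c1 : ℝ} (h : Skew A B φ c0 c1)
    {v w : E} (hv : v ∈ vectorSpan ℝ A) (hw : w ∈ vectorSpan ℝ B) (hvw : v = w) : v = 0 :=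
  Submodule.disjoint_def.1 h.2.2.2 v hv (hvw ▸ hw)

/-- points of the relative interior of a join -/
theorem join_ri {A B : Set E} (hA : Convex ℝ A) (hB : Convex ℝ B) (hAr : (intrinsicInterior ℝ A).Nonempty)
    (hBn : B.Nonempty) {φ : E →L[ℝ] ℝ} {c0 c1 : ℝ} (h : Skew A B φ c0 c1) {z : E}
    (hz : z ∈ intrinsicInterior ℝ (convexHull ℝ (A ∪ B))) :
    ∃ a ∈ intrinsicInterior ℝ A, ∃ b ∈ B, ∃ l : ℝ, 0 < l ∧ l < 1 ∧ z = (1 - l) • a + l • b := by
  obtain ⟨a', ha'⟩ := hAr
  have ha'A := intrinsicInterior_subset ha'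
  obtain ⟨b', hb'⟩ := hBn
  have hrep := fun z => join_mem (z := z) hA hB ⟨a', ha'A⟩ ⟨b', hb'⟩
  have hφ : ∀ (a b : E) (l : ℝ), a ∈ A → b ∈ B → φ ((1 - l) • a + l • b) = c0 + l * (c1 - c0) := by
    intro a b l ha hb
    rw [map_add, map_smul, map_smul, h.2.1 a ha, h.2.2.1 b hb, smul_eq_mul, smul_eq_mul]
    ring
  obtain ⟨a, ha, b, hb, l, hl0, hl1, hzl⟩ := (hrep z).1 (intrinsicInterior_subset hz)
  have hsub : A ∪ B ⊆ convexHull ℝ (A ∪ B) := subset_convexHull ℝ _
  have hne : c1 - c0 ≠ 0 := sub_ne_zero.2 h.1.symm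
  have hlz : φ z = c0 + l * (c1 - c0) := by rw [hzl, hφ a b l ha hb]
  -- `l < 1`
  have hl1' : l < 1 := by
    obtain ⟨η, hη, h1⟩ := extend hz (hsub (Or.inl ha'A))
    obtain ⟨a1, ha1, b1, hb1, l1, h10, h11, e1⟩ := (hrep _).1 h1
    have h2 := congrArg φ e1
    rw [hφ a1 b1 l1 ha1 hb1, map_add, map_smul, map_sub, hlz, h.2.1 a' ha'A, smul_eq_mul] at h2
    have h3 : (l1 - (1 + η) * l) * (c1 - c0) = 0 := by linear_combination -h2
    have h4 : l1 = (1 + η) * l := by
      rcases mul_eq_zero.1 h3 with h5 | h5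
      · linarith
      · exact absurd h5 hne
    nlinarith
  have hl0' : 0 < l := by
    obtain ⟨η, hη, h1⟩ := extend hz (hsub (Or.inr hb'))
    obtain ⟨a1, ha1, b1, hb1, l1, h10, h11, e1⟩ := (hrep _).1 h1
    have h2 := congrArg φ e1
    rw [hφ a1 b1 l1 ha1 hb1, map_add, map_smul, map_sub, hlz, h.2.2.1 b' hb', smul_eq_mul] at h2
    have h3 : (l1 - l + η * (1 - l)) * (c1 - c0) = 0 := by linear_combination -h2
    have h4 : l1 - l + η * (1 - l) = 0 := by
      rcases mul_eq_zero.1 h3 with h5 | h5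
      · exact h5
      · exact absurd h5 hne
    nlinarith
  refine ⟨a, ?_, b, hb, l, hl0', hl1', hzl⟩
  -- the first component is in the relative interior
  have hk : (1 - l) • a' + l • b ∈ convexHull ℝ (A ∪ B) :=
    (hrep _).2 ⟨a', ha'A, b, hb, l, hl0, hl1, rfl⟩
  obtain ⟨η, hη, h1⟩ := extend hz hk
  obtain ⟨a1, ha1, b1, hb1, l1, h10, h11, e1⟩ := (hrep _).1 h1
  have h2 := congrArg φ e1
  rw [hφ a1 b1 l1 ha1 hb1, map_add, map_smul, map_sub, hlz, hφ a' b l ha'A hb, smul_eq_mul] at h2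
  have h3 : (l1 - l) * (c1 - c0) = 0 := by linear_combination -h2
  have h4 : l1 = l := by
    rcases mul_eq_zero.1 h3 with h5 | h5
    · linarith
    · exact absurd h5 hne
  subst h4
  have h5 : (1 - l1) • ((a - a1) + η • (a - a')) = l1 • (b1 - b) := by
    rw [hzl] at e1
    have e2 : (1 - l1) • a + l1 • b + η • ((1 - l1) • a + l1 • b - ((1 - l1) • a' + l1 • b)) =
        (1 - l1) • a1 + l1 • b1 := e1
    have e3 : (1 - l1) • ((a - a1) + η • (a - a')) - l1 • (b1 - b) =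
        ((1 - l1) • a + l1 • b + η • ((1 - l1) • a + l1 • b - ((1 - l1) • a' + l1 • b))) -
        ((1 - l1) • a1 + l1 • b1) := by module
    rw [e2, sub_self] at e3
    exact sub_eq_zero.1 e3
  have h6 := skew_unique h (Submodule.smul_mem _ _ (Submodule.add_mem _ (diff_mem ha ha1)
    (Submodule.smul_mem _ η (diff_mem ha ha'A)))) (Submodule.smul_mem _ _ (diff_mem hb1 hb)) h5
  have h7 : (a - a1) + η • (a - a') = 0 := by
    rcases smul_eq_zero.1 h6 with h8 | h8
    · linarith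
    · exact h8
  have h8 : a + η • (a - a') ∈ A := by
    have : a + η • (a - a') = a1 := by
      have e : a + η • (a - a') = ((a - a1) + η • (a - a')) + a1 := by module
      rw [e, h7, zero_add]
    rw [this]; exact ha1
  have h9 := combo hA h8 ha' (t := η / (1 + η)) (by positivity)
    ((div_le_one (by positivity)).2 (by linarith))
  convert h9 using 1
  have e1 : 1 - η / (1 + η) = (1 + η)⁻¹ := by field_simp; ring
  have e2 : a + η • (a - a') = (1 + η) • a - η • a' := by module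
  have e3 : (1 + η)⁻¹ • ((1 + η) • a - η • a') = a - (η / (1 + η)) • a' := by
    rw [smul_sub, inv_smul_smul₀ (by positivity), smul_smul, div_eq_inv_mul]
  rw [e1, e2, e3]
  abel

open scoped Classical in
/-- one half of the lower bound -/
theorem join_half {A B : Set E} (hA : Convex ℝ A) (hB : Convex ℝ B)
    (hAr : (intrinsicInterior ℝ A).Nonempty)
    (hBn : B.Nonempty) {φ : E →L[ℝ] ℝ} {c0 c1 : ℝ} (h : Skew A B φ c0 c1) (T : Finset E)
    (hT : A ⊆ ⋃ t ∈ T, (fun x => t + x) '' intrinsicInterior ℝ (convexHull ℝ (A ∪ B))) :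
    RCov A (T.filter fun t => ∃ x ∈ A, x - t ∈ intrinsicInterior ℝ (convexHull ℝ (A ∪ B))).card := by
  obtain ⟨p, hp⟩ := id hAr
  have hpA := intrinsicInterior_subset hp
  have hφ : ∀ (a b : E) (l : ℝ), a ∈ A → b ∈ B → φ ((1 - l) • a + l • b) = c0 + l * (c1 - c0) := by
    intro a b l ha hb
    rw [map_add, map_smul, map_smul, h.2.1 a ha, h.2.2.1 b hb, smul_eq_mul, smul_eq_mul]
    ring
  have hne : c1 - c0 ≠ 0 := sub_ne_zero.2 h.1.symm
  have key : ∀ t : E, (∃ x ∈ A, x - t ∈ intrinsicInterior ℝ (convexHull ℝ (A ∪ B))) →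
      ∃ s : E, ∀ x ∈ A, x - t ∈ intrinsicInterior ℝ (convexHull ℝ (A ∪ B)) →
        x - s ∈ intrinsicInterior ℝ A := by
    rintro t ⟨x0, hx0, hx0'⟩
    obtain ⟨a0, ha0, b0, hb0, l, hl0, hl1, e0⟩ := join_ri hA hB hAr hBn h hx0'
    refine ⟨t + l • b0 - l • p, fun x hx hx' => ?_⟩
    obtain ⟨a, ha, b, hb, l', hl0', hl1', e⟩ := join_ri hA hB hAr hBn h hx'
    have h1 := congrArg φ e0
    have h2 := congrArg φ e
    rw [hφ a0 b0 l (intrinsicInterior_subset ha0) hb0, map_sub, h.2.1 x0 hx0] at h1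
    rw [hφ a b l' (intrinsicInterior_subset ha) hb, map_sub, h.2.1 x hx] at h2
    have h3 : (l' - l) * (c1 - c0) = 0 := by linear_combination h1 - h2
    have h4 : l' = l := by
      rcases mul_eq_zero.1 h3 with h5 | h5
      · linarith
      · exact absurd h5 hne
    subst h4
    have h5 : (x - x0) - (1 - l') • (a - a0) = l' • (b - b0) := by
      have e3 : (x - x0) - (1 - l') • (a - a0) - l' • (b - b0) =
          ((x - t) - ((1 - l') • a + l' • b)) - ((x0 - t) - ((1 - l') • a0 + l' • b0)) := by module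
      rw [e, e0, sub_self, sub_self, sub_zero] at e3
      exact sub_eq_zero.1 e3
    have h6 := skew_unique h (Submodule.sub_mem _ (diff_mem hx hx0)
      (Submodule.smul_mem _ _ (diff_mem (intrinsicInterior_subset ha)
        (intrinsicInterior_subset ha0)))) (Submodule.smul_mem _ _ (diff_mem hb hb0)) h5
    rw [h6] at h5
    have h7 : b = b0 := by
      rcases smul_eq_zero.1 h5.symm with h8 | h8
      · exact absurd h8 hl0'.ne'
      · exact sub_eq_zero.1 h8
    have h8 := combo hA hpA ha (t := 1 - l') (by linarith) (by linarith)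
    convert h8 using 1
    have e4 : x - (t + l' • b0 - l' • p) = (x - t) - l' • b0 + l' • p := by module
    rw [e4, e, h7]
    module
  refine ⟨(T.filter fun t => ∃ x ∈ A, x - t ∈ intrinsicInterior ℝ (convexHull ℝ (A ∪ B))).image
    (fun t => if ht : ∃ x ∈ A, x - t ∈ intrinsicInterior ℝ (convexHull ℝ (A ∪ B)) then
      (key t ht).choose else 0), Finset.card_image_le, ?_⟩
  intro x hx
  obtain ⟨t, ht, y, hy, hyx⟩ := mem_iUnion₂.1 (hT hx)
  simp only at hyx
  have hy2 : x - t ∈ intrinsicInterior ℝ (convexHull ℝ (A ∪ B)) := by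
    rw [← hyx, add_sub_cancel_left]; exact hy
  have hex : ∃ x ∈ A, x - t ∈ intrinsicInterior ℝ (convexHull ℝ (A ∪ B)) := ⟨x, hx, hy2⟩
  refine mem_iUnion₂.2 ⟨_, Finset.mem_image_of_mem _ (Finset.mem_filter.2 ⟨ht, hex⟩), x -
    (key t hex).choose, (key t hex).choose_spec x hx hy2, ?_⟩
  simp only [dif_pos hex]
  abel

/-- **Additivity for joins**, lower bound. -/
theorem join_lower {A B : Set E} (hA : Convex ℝ A) (hB : Convex ℝ B)
    (hAr : (intrinsicInterior ℝ A).Nonempty) (hBr : (intrinsicInterior ℝ B).Nonempty)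
    {φ : E →L[ℝ] ℝ} {c0 c1 : ℝ} (h : Skew A B φ c0 c1) {N : ℕ}
    (hN : RCov (convexHull ℝ (A ∪ B)) N) : ∃ N1 N2, N1 + N2 ≤ N ∧ RCov A N1 ∧ RCov B N2 := by
  classical
  obtain ⟨T, hT, hcov⟩ := hN
  have hAn : A.Nonempty := hAr.mono intrinsicInterior_subset
  have hBn : B.Nonempty := hBr.mono intrinsicInterior_subset
  have hsub : A ∪ B ⊆ convexHull ℝ (A ∪ B) := subset_convexHull ℝ _
  have h1 := join_half hA hB hAr hBn h T ((subset_union_left.trans hsub).trans hcov)
  have h2 := join_half hB hA hBr hAn h.symm T (by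
    rw [union_comm]; exact (subset_union_right.trans hsub).trans hcov)
  refine ⟨_, _, ?_, h1, h2⟩
  refine le_trans ?_ hT
  rw [← Finset.card_union_of_disjoint]
  · exact Finset.card_le_card (Finset.union_subset (Finset.filter_subset _ _)
      (Finset.filter_subset _ _))
  · rw [Finset.disjoint_left]
    intro t ht ht'
    obtain ⟨-, x, hx, hxt⟩ := Finset.mem_filter.1 ht
    obtain ⟨-, y, hy, hyt⟩ := Finset.mem_filter.1 ht'
    obtain ⟨a, ha, b, hb, l, hl0, hl1, e⟩ := join_ri hA hB hAr hBn h hxt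
    obtain ⟨b', hb', a', ha', l', hl0', hl1', e'⟩ := join_ri hB hA hBr hAn h.symm hyt
    have h3 := congrArg φ e
    have h4 := congrArg φ e'
    rw [map_add, map_smul, map_smul, h.2.1 a (intrinsicInterior_subset ha), h.2.2.1 b hb, map_sub,
      h.2.1 x hx, smul_eq_mul, smul_eq_mul] at h3
    rw [map_add, map_smul, map_smul, h.2.2.1 b' (intrinsicInterior_subset hb'), h.2.1 a' ha',
      map_sub, h.2.2.1 y hy, smul_eq_mul, smul_eq_mul] at h4
    have h5 : (l + l') * (c1 - c0) = 0 := by linear_combination h4 - h3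
    rcases mul_eq_zero.1 h5 with h6 | h6
    · linarith
    · exact h.1 (sub_eq_zero.1 h6).symm

end Pool.Agent.V11317.Had
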