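import Pool.Agent.V11317.Had.Ri

set_option autoImplicit false

/-!
Convex bodies which project along a direction into one of their faces: illumination.
-/

open Set Topology

namespace Pool.Agent.V11317.Had

variable {E : Type*} [NormedAddCommGroup E] [NormedSpace ℝ E]

/-- relative covering number at most `N` -/
def RCov (A : Set E) (N : ℕ) : Prop :=
  ∃ T : Finset E, T.card ≤ N ∧ A ⊆ ⋃ t ∈ T, (fun x => t + x) '' intrinsicInterior ℝ A

theorem RCov.mono {A : Set E} {N M : ℕ} (h : RCov A N) (hNM : N ≤ M) : RCov A M := by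
  obtain ⟨T, hT, h1⟩ := h
  exact ⟨T, hT.trans hNM, h1⟩

theorem shrink {K : Set E} (hK : Convex ℝ K) {z u : E} {β β' : ℝ} (hz : z ∈ K)
    (h : z + β • u ∈ intrinsicInterior ℝ K) (h0 : 0 < β') (h1 : β' ≤ β) :
    z + β' • u ∈ intrinsicInterior ℝ K := by
  have hβ : 0 < β := by linarith
  have := combo hK hz h (t := β' / β) (by positivity) ((div_le_one hβ).2 h1)
  convert this using 1
  have e : β' = β' / β * β := by field_simp
  nth_rewrite 1 [e]
  module

/-- lifting a point of the relative interior of the face -/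
theorem lift {K F : Set E} (hK : Convex ℝ K) {φ : E →L[ℝ] ℝ} {v : E} (hv : φ v = 1)
    (hF : F = {x | x ∈ K ∧ φ x = 0}) (hsh : ∀ x ∈ K, x - φ x • v ∈ K) {p : E}
    (hp : p ∈ intrinsicInterior ℝ K) (hp0 : 0 < φ p) {z : E} (hz : z ∈ intrinsicInterior ℝ F) :
    ∃ β : ℝ, 0 < β ∧ z + β • v ∈ intrinsicInterior ℝ K := by
  have hpK := intrinsicInterior_subset hp
  have hq : p - φ p • v ∈ F := by
    rw [hF]
    refine ⟨hsh p hpK, ?_⟩
    rw [map_sub, map_smul, hv, smul_eq_mul, mul_one, sub_self]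
  obtain ⟨η, hη, h1⟩ := extend hz hq
  have h2 : z + η • (z - (p - φ p • v)) ∈ K := by
    rw [hF] at h1
    exact h1.1
  have h3 : 0 < 1 + η := by linarith
  have h4 := combo hK h2 hp (t := η / (1 + η)) (by positivity)
    ((div_le_one h3).2 (by linarith))
  refine ⟨η / (1 + η) * φ p, by positivity, ?_⟩
  convert h4 using 1
  have e : (1 - η / (1 + η)) = (1 + η)⁻¹ := by field_simp; ring
  have e2 : (1 + η)⁻¹ * (1 + η) = 1 := by field_simp
  have e3 : z = ((1 + η)⁻¹ * (1 + η)) • z := by rw [e2, one_smul]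
  rw [e, div_eq_mul_inv]
  nth_rewrite 1 [e3]
  module

/-- uniform depth -/
theorem uniform {K F : Set E} (hK : Convex ℝ K) (hFK : F ⊆ K) (hFc : IsCompact F) (T : Finset E)
    (hT : F ⊆ ⋃ t ∈ T, (fun x => t + x) '' intrinsicInterior ℝ F) (u w : E)
    (hu : ∀ z ∈ intrinsicInterior ℝ F, ∃ β : ℝ, 0 < β ∧ z + β • u ∈ intrinsicInterior ℝ K)
    (hw : ∀ z ∈ intrinsicInterior ℝ F, ∃ β : ℝ, 0 < β ∧ z + β • w ∈ intrinsicInterior ℝ K) :
    ∃ β : ℝ, 0 < β ∧ ∀ y ∈ F, ∃ t ∈ T, y - t ∈ intrinsicInterior ℝ F ∧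
      y - t + β • u ∈ intrinsicInterior ℝ K ∧ y - t + β • w ∈ intrinsicInterior ℝ K := by
  refine hFc.induction_on (p := fun s => ∃ β : ℝ, 0 < β ∧ ∀ y ∈ s, ∃ t ∈ T,
      y - t ∈ intrinsicInterior ℝ F ∧
      y - t + β • u ∈ intrinsicInterior ℝ K ∧ y - t + β • w ∈ intrinsicInterior ℝ K) ?_ ?_ ?_ ?_
  · exact ⟨1, one_pos, fun y hy => absurd hy (notMem_empty y)⟩
  · rintro s t hst ⟨ρ, hρ, h1⟩
    exact ⟨ρ, hρ, fun y hy => h1 y (hst hy)⟩
  · rintro s t ⟨ρ, hρ, h1⟩ ⟨ρ', hρ', h2⟩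
    refine ⟨min ρ ρ', lt_min hρ hρ', fun y hy => ?_⟩
    rcases hy with hy | hy
    · obtain ⟨t, ht, h3, h4, h5⟩ := h1 y hy
      have h6 := hFK (intrinsicInterior_subset h3)
      exact ⟨t, ht, h3, shrink hK h6 h4 (lt_min hρ hρ') (min_le_left _ _),
        shrink hK h6 h5 (lt_min hρ hρ') (min_le_left _ _)⟩
    · obtain ⟨t, ht, h3, h4, h5⟩ := h2 y hy
      have h6 := hFK (intrinsicInterior_subset h3)
      exact ⟨t, ht, h3, shrink hK h6 h4 (lt_min hρ hρ') (min_le_right _ _),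
        shrink hK h6 h5 (lt_min hρ hρ') (min_le_right _ _)⟩
  · intro y hy
    obtain ⟨t, ht, z, hz, hzy⟩ := Set.mem_iUnion₂.1 (hT hy)
    simp only at hzy
    have hz2 : z = y - t := by rw [← hzy]; abel
    obtain ⟨β1, hβ1, h1⟩ := hu z hz
    obtain ⟨β2, hβ2, h2⟩ := hw z hz
    have hzK := hFK (intrinsicInterior_subset hz)
    have h1' := shrink hK hzK h1 (lt_min hβ1 hβ2) (min_le_left _ _)
    have h2' := shrink hK hzK h2 (lt_min hβ1 hβ2) (min_le_right _ _)
    set β := min β1 β2 with hβ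
    obtain ⟨e0, he0, g0⟩ := ri_near hz
    obtain ⟨e1, he1, g1⟩ := ri_near h1'
    obtain ⟨e2, he2, g2⟩ := ri_near h2'
    refine ⟨Metric.ball y (min e0 (min e1 e2)) ∩ F, ?_, β, lt_min hβ1 hβ2, ?_⟩
    · rw [Set.inter_comm]
      exact inter_mem_nhdsWithin _ (Metric.ball_mem_nhds y (lt_min he0 (lt_min he1 he2)))
    · rintro y' ⟨hy', hyF'⟩
      rw [Metric.mem_ball] at hy'
      have hd0 := lt_of_lt_of_le hy' (min_le_left _ _)
      have hd1 := lt_of_lt_of_le hy' ((min_le_right _ _).trans (min_le_left _ _))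
      have hd2 := lt_of_lt_of_le hy' ((min_le_right _ _).trans (min_le_right _ _))
      have aff : ∀ (S : Set E) (c : E), F ⊆ S → c ∈ S → c + (y' - y) ∈ affineSpan ℝ S := by
        intro S c hS hc
        have := aff_comb (subset_affineSpan ℝ S hc) (subset_affineSpan ℝ S (hS hyF'))
          (subset_affineSpan ℝ S (hS hy)) 1
        rwa [one_smul] at this
      have dd : ∀ c : E, dist (c + (y' - y)) c = dist y' y := by
        intro c
        rw [dist_eq_norm, add_sub_cancel_left, ← dist_eq_norm]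
      have k0 := g0 _ (aff F z subset_rfl (intrinsicInterior_subset hz)) (by rw [dd]; exact hd0)
      have k1 := g1 _ (aff K _ hFK (intrinsicInterior_subset h1')) (by rw [dd]; exact hd1)
      have k2 := g2 _ (aff K _ hFK (intrinsicInterior_subset h2')) (by rw [dd]; exact hd2)
      refine ⟨t, ht, ?_, ?_, ?_⟩
      · convert k0 using 1
        rw [hz2]; abel
      · convert k1 using 1
        rw [hz2]; abel
      · convert k2 using 1
        rw [hz2]; abel

/-- points above the face -/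
theorem height {K : Set E} (hK : Convex ℝ K) {y z v : E} {τ β s h : ℝ} (hy : y ∈ K)
    (hx : y + τ • v ∈ K) (hz : z ∈ K) (hzβ : z + β • v ∈ intrinsicInterior ℝ K) (hs : 0 < s)
    (hs1 : s ≤ 1) (hτ : 0 ≤ τ) (hβ : 0 < β) (h0 : 0 < h) (h1 : h ≤ (1 - s) * τ + s * β) :
    (1 - s) • y + s • z + h • v ∈ intrinsicInterior ℝ K := by
  have a1 : (1 - s) • y + s • z ∈ K := hK hy hz (by linarith) hs.le (by ring)
  have a2 : (1 - s) • (y + τ • v) + s • (z + β • v) ∈ intrinsicInterior ℝ K :=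
    combo hK hx hzβ hs hs1
  have a3 : (1 - s) • y + s • z + ((1 - s) * τ + s * β) • v ∈ intrinsicInterior ℝ K := by
    convert a2 using 1
    module
  exact shrink hK a1 a3 h0 h1

theorem bounded_fun {K : Set E} (hKc : IsCompact K) (φ : E →L[ℝ] ℝ) :
    ∃ M : ℝ, ∀ x ∈ K, |φ x| ≤ M := by
  obtain ⟨M, hM⟩ := (hKc.image φ.continuous).isBounded.exists_norm_le
  exact ⟨M, fun x hx => by simpa using hM _ ⟨x, hx, rfl⟩⟩

/-- **Shadow facets.** -/
theorem facet {K F : Set E} (hK : Convex ℝ K) (hKc : IsCompact K)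
    (hri : K.Nonempty → (intrinsicInterior ℝ K).Nonempty) {φ : E →L[ℝ] ℝ} {v : E} (hv : φ v = 1)
    (hF : F = {x | x ∈ K ∧ φ x = 0}) (hsh : ∀ x ∈ K, x - φ x • v ∈ K) (hpos : ∀ x ∈ K, 0 ≤ φ x)
    {N : ℕ} (hN : RCov F N) : RCov K (2 * N) := by
  classical
  by_cases hflat : ∀ x ∈ K, φ x = 0
  · have : F = K := by
      rw [hF]
      ext x
      exact ⟨fun h => h.1, fun h => ⟨h, hflat x h⟩⟩
    rw [← this]
    exact hN.mono (by omega)
  push Not at hflat
  obtain ⟨x0, hx0, hx0'⟩ := hflat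
  have hx0p : 0 < φ x0 := lt_of_le_of_ne (hpos x0 hx0) (Ne.symm hx0')
  obtain ⟨p0, hp0⟩ := hri ⟨x0, hx0⟩
  have hp := combo hK hx0 hp0 (t := 1 / 2) (by norm_num) (by norm_num)
  set p : E := (1 - 1 / 2 : ℝ) • x0 + (1 / 2 : ℝ) • p0 with hpdef
  have hφp : 0 < φ p := by
    rw [hpdef, map_add, map_smul, map_smul, smul_eq_mul, smul_eq_mul]
    have := hpos p0 (intrinsicInterior_subset hp0)
    linarith
  have hFK : F ⊆ K := by rw [hF]; exact fun x hx => hx.1
  have hFc : IsCompact F := by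
    rw [hF]
    exact hKc.inter_right (isClosed_eq φ.continuous continuous_const)
  have hl := fun z hz => lift hK hv hF hsh hp hφp (z := z) hz
  obtain ⟨T, hT, hcov⟩ := hN
  obtain ⟨β, hβ, hun⟩ := uniform hK hFK hFc T hcov v v hl hl
  obtain ⟨M', hM'⟩ := bounded_fun hKc φ
  set M : ℝ := max M' β with hM
  have hMβ : β ≤ M := le_max_right _ _
  have hM0 : 0 < M := lt_of_lt_of_le hβ hMβ
  have hφM : ∀ x ∈ K, φ x ≤ M := fun x hx =>
    ((le_abs_self _).trans (hM' x hx)).trans (le_max_left _ _)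
  set s : ℝ := β / (4 * M) with hs
  have hs0 : 0 < s := by positivity
  have hsM : s * M = β / 4 := by rw [hs]; field_simp
  have hs1 : s ≤ 1 := by
    rw [hs, div_le_one (by positivity)]
    linarith
  refine ⟨(T.image fun t => s • t - (s * β / 2) • v) ∪ (T.image fun t => s • t + (s * M) • v),
    ?_, ?_⟩
  · refine (Finset.card_union_le _ _).trans ?_
    have h1 := Finset.card_image_le (s := T) (f := fun t => s • t - (s * β / 2) • v)
    have h2 := Finset.card_image_le (s := T) (f := fun t => s • t + (s * M) • v)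
    omega
  · intro x hx
    set τ := φ x with hτ
    set y : E := x - τ • v with hy
    have hyF : y ∈ F := by
      rw [hF]
      refine ⟨hsh x hx, ?_⟩
      rw [hy, map_sub, map_smul, hv, smul_eq_mul, mul_one, sub_self]
    have hyK := hFK hyF
    have hτ0 : 0 ≤ τ := hpos x hx
    have hxy : y + τ • v = x := by rw [hy]; abel
    obtain ⟨t, ht, hz, hzβ, -⟩ := hun y hyF
    have hzK := hFK (intrinsicInterior_subset hz)
    have key : ∀ h : ℝ, 0 < h → h ≤ (1 - s) * τ + s * β →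
        (1 - s) • y + s • (y - t) + h • v ∈ intrinsicInterior ℝ K := fun h h0 h1 =>
      height hK hyK (by rw [hxy]; exact hx) hzK hzβ hs0 hs1 hτ0 hβ h0 h1
    rcases le_or_gt τ (β / 2) with hc | hc
    · have h1 := key (τ + s * β / 2) (by positivity) (by nlinarith)
      refine Set.mem_iUnion₂.2 ⟨s • t - (s * β / 2) • v, Finset.mem_union_left _
        (Finset.mem_image_of_mem _ ht), _, h1, ?_⟩
      simp only
      rw [hy]
      module
    · have h1 := key (τ - s * M) (by rw [hsM]; linarith) (by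
        have := hφM x hx
        nlinarith)
      refine Set.mem_iUnion₂.2 ⟨s • t + (s * M) • v, Finset.mem_union_right _
        (Finset.mem_image_of_mem _ ht), _, h1, ?_⟩
      simp only
      rw [hy]
      module

end Pool.Agent.V11317.Had
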