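import Mathlib

set_option autoImplicit false

/-!
Relative interiors of convex sets: elementary facts.
-/

open Set Topology

namespace Pool.Agent.V11317.Had

variable {E : Type*} [NormedAddCommGroup E] [NormedSpace ℝ E]

theorem mem_ri {s : Set E} {x : E} : x ∈ intrinsicInterior ℝ s ↔
    x ∈ s ∧ ∃ ε > 0, ∀ y ∈ affineSpan ℝ s, dist y x < ε → y ∈ s := by
  constructor
  · intro h
    obtain ⟨y, hy, rfl⟩ := mem_intrinsicInterior.1 h
    obtain ⟨ε, hε, hb⟩ := Metric.mem_nhds_iff.1 (mem_interior_iff_mem_nhds.1 hy)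
    refine ⟨intrinsicInterior_subset h, ε, hε, fun z hz hd => ?_⟩
    exact hb (show (⟨z, hz⟩ : affineSpan ℝ s) ∈ Metric.ball y ε from hd)
  · rintro ⟨hx, ε, hε, h⟩
    refine mem_intrinsicInterior.2 ⟨⟨x, subset_affineSpan ℝ s hx⟩, ?_, rfl⟩
    rw [mem_interior_iff_mem_nhds, Metric.mem_nhds_iff]
    exact ⟨ε, hε, fun z hz => h z z.2 hz⟩

/-- affine combinations stay in the affine span -/
theorem aff_comb {s : Set E} {a b c : E} (ha : a ∈ affineSpan ℝ s) (hb : b ∈ affineSpan ℝ s)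
    (hc : c ∈ affineSpan ℝ s) (r : ℝ) : a + r • (b - c) ∈ affineSpan ℝ s := by
  have h := (affineSpan ℝ s).smul_vsub_vadd_mem r hb hc ha
  rw [vsub_eq_sub, vadd_eq_add, add_comm] at h
  exact h

theorem combo {s : Set E} (hs : Convex ℝ s) {a b : E} (ha : a ∈ s)
    (hb : b ∈ intrinsicInterior ℝ s) {t : ℝ} (ht : 0 < t) (ht1 : t ≤ 1) :
    (1 - t) • a + t • b ∈ intrinsicInterior ℝ s := by
  obtain ⟨hbs, ε, hε, h⟩ := mem_ri.1 hb
  refine mem_ri.2 ⟨hs ha hbs (by linarith) ht.le (by ring), t * ε, by positivity, ?_⟩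
  intro y hy hd
  have hA : a ∈ affineSpan ℝ s := subset_affineSpan ℝ s ha
  have hB : b ∈ affineSpan ℝ s := subset_affineSpan ℝ s hbs
  have hc : (1 - t) • a + t • b ∈ affineSpan ℝ s := by
    have := aff_comb hA hB hA t
    convert this using 1
    module
  set b' : E := b + t⁻¹ • (y - ((1 - t) • a + t • b)) with hb'
  have h1 : b' ∈ affineSpan ℝ s := aff_comb hB hy hc t⁻¹
  have h2 : dist b' b < ε := by
    rw [dist_eq_norm, hb', add_sub_cancel_left, norm_smul, norm_inv, Real.norm_of_nonneg ht.le,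
      inv_mul_lt_iff₀ ht, ← dist_eq_norm]
    exact hd
  have h3 : y = (1 - t) • a + t • b' := by
    rw [hb', smul_add, smul_inv_smul₀ ht.ne']
    abel
  rw [h3]
  exact hs ha (h _ h1 h2) (by linarith) ht.le (by ring)

/-- a segment from a point of the relative interior can be extended -/
theorem extend {s : Set E} {z q : E} (hz : z ∈ intrinsicInterior ℝ s) (hq : q ∈ s) :
    ∃ η : ℝ, 0 < η ∧ z + η • (z - q) ∈ s := by
  obtain ⟨hzs, ε, hε, h⟩ := mem_ri.1 hz
  have hz' := subset_affineSpan ℝ s hzs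
  have hq' := subset_affineSpan ℝ s hq
  refine ⟨ε / (2 * (‖z - q‖ + 1)), by positivity, h _ (aff_comb hz' hz' hq' _) ?_⟩
  rw [dist_eq_norm, add_sub_cancel_left, norm_smul, Real.norm_of_nonneg (by positivity)]
  have hn : 0 ≤ ‖z - q‖ := norm_nonneg _
  rw [div_mul_eq_mul_div, div_lt_iff₀ (by positivity)]
  nlinarith

/-- near a point of the relative interior -/
theorem ri_near {s : Set E} {x : E} (hx : x ∈ intrinsicInterior ℝ s) :
    ∃ ε > 0, ∀ y ∈ affineSpan ℝ s, dist y x < ε → y ∈ intrinsicInterior ℝ s := by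
  obtain ⟨hxs, ε, hε, h⟩ := mem_ri.1 hx
  refine ⟨ε / 2, by positivity, fun y hy hd => mem_ri.2 ⟨h y hy (by linarith), ε / 2,
    by positivity, fun u hu hd' => h u hu ?_⟩⟩
  have := dist_triangle u y x
  linarith

end Pool.Agent.V11317.Had
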