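import Pool.Agent.V11317.Had.Main

set_option autoImplicit false

/-!
Convex bodies with a section that is also their shadow.
-/

open Set Topology

namespace Pool.Agent.V11317.Had

variable {E : Type*} [NormedAddCommGroup E] [NormedSpace ℝ E]

/-- **Shadow sections.** -/
theorem sect {K F : Set E} (hK : Convex ℝ K) (hKc : IsCompact K)
    (hri : K.Nonempty → (intrinsicInterior ℝ K).Nonempty) {φ : E →L[ℝ] ℝ} {v : E} (hv : φ v = 1)
    (hF : F = {x | x ∈ K ∧ φ x = 0}) (hsh : ∀ x ∈ K, x - φ x • v ∈ K)
    {N : ℕ} (hN : RCov F N) : RCov K (3 * N) := by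
  classical
  by_cases hpos : ∀ x ∈ K, 0 ≤ φ x
  · exact (facet hK hKc hri hv hF hsh hpos hN).mono (by omega)
  by_cases hneg : ∀ x ∈ K, φ x ≤ 0
  · refine (facet (φ := -φ) (v := -v) hK hKc hri ?_ ?_ ?_ ?_ hN).mono (by omega)
    · simp [hv]
    · rw [hF]; simp
    · intro x hx
      simpa using hsh x hx
    · intro x hx
      simpa using hneg x hx
  push Not at hpos hneg
  obtain ⟨x1, hx1, hx1'⟩ := hpos
  obtain ⟨x0, hx0, hx0'⟩ := hneg
  obtain ⟨p0, hp0⟩ := hri ⟨x0, hx0⟩
  -- points of the relative interior on both sides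
  have near : ∀ (ψ : E →L[ℝ] ℝ) (x : E), x ∈ K → 0 < ψ x →
      ∃ p ∈ intrinsicInterior ℝ K, 0 < ψ p := by
    intro ψ x hx hψ
    have hden : 0 < 1 + |ψ p0| + ψ x := by positivity
    set t : ℝ := ψ x / (2 * (1 + |ψ p0| + ψ x)) with ht
    have ht0 : 0 < t := by positivity
    have ht1 : t ≤ 1 := by
      rw [ht, div_le_one (by positivity)]
      have := abs_nonneg (ψ p0)
      linarith
    refine ⟨_, combo hK hx hp0 ht0 ht1, ?_⟩
    rw [map_add, map_smul, map_smul, smul_eq_mul, smul_eq_mul]
    have h1 := neg_abs_le (ψ p0)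
    have h2 : t * (2 * (1 + |ψ p0| + ψ x)) = ψ x := by rw [ht]; field_simp
    have h3 : t * |ψ p0| + t * ψ x ≤ ψ x / 2 := by nlinarith
    have h4 : -(t * |ψ p0|) ≤ t * ψ p0 := by nlinarith
    nlinarith
  obtain ⟨p, hp, hφp⟩ := near φ x0 hx0 hx0'
  obtain ⟨q, hq, hφq⟩ := near (-φ) x1 hx1 (by simpa using hx1')
  have hFK : F ⊆ K := by rw [hF]; exact fun x hx => hx.1
  have hFc : IsCompact F := by
    rw [hF]
    exact hKc.inter_right (isClosed_eq φ.continuous continuous_const)
  have hl := fun z hz => lift hK hv hF hsh hp hφp (z := z) hz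
  have hl' := fun z hz => lift (F := F) (φ := -φ) (v := -v) hK (by simp [hv]) (by rw [hF]; simp)
    (fun x hx => by simpa using hsh x hx) hq hφq (z := z) hz
  obtain ⟨T, hT, hcov⟩ := hN
  obtain ⟨β, hβ, hun⟩ := uniform hK hFK hFc T hcov v (-v) hl hl'
  obtain ⟨M', hM'⟩ := bounded_fun hKc φ
  set M : ℝ := max M' β with hM
  have hMβ : β ≤ M := le_max_right _ _
  have hM0 : 0 < M := lt_of_lt_of_le hβ hMβ
  have hφM : ∀ x ∈ K, |φ x| ≤ M := fun x hx => (hM' x hx).trans (le_max_left _ _)
  set s : ℝ := β / (4 * M) with hs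
  have hs0 : 0 < s := by positivity
  have hsM : s * M = β / 4 := by rw [hs]; field_simp
  have hs1 : s ≤ 1 := by
    rw [hs, div_le_one (by positivity)]
    linarith
  refine ⟨(T.image fun t => s • t) ∪ (T.image fun t => s • t + (s * M) • v) ∪
    (T.image fun t => s • t - (s * M) • v), ?_, ?_⟩
  · refine (Finset.card_union_le _ _).trans ?_
    have h0 := Finset.card_union_le (T.image fun t => s • t) (T.image fun t => s • t + (s * M) • v)
    have h1 := Finset.card_image_le (s := T) (f := fun t => s • t)
    have h2 := Finset.card_image_le (s := T) (f := fun t => s • t + (s * M) • v)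
    have h3 := Finset.card_image_le (s := T) (f := fun t => s • t - (s * M) • v)
    omega
  · intro x hx
    set τ := φ x with hτ
    set y : E := x - τ • v with hy
    have hyF : y ∈ F := by
      rw [hF]
      refine ⟨hsh x hx, ?_⟩
      rw [hy, map_sub, map_smul, hv, smul_eq_mul, mul_one, sub_self]
    have hyK := hFK hyF
    have hxy : y + τ • v = x := by rw [hy]; abel
    have hxy' : y + (-τ) • (-v) = x := by rw [hy]; module
    obtain ⟨t, ht, hz, hzβ, hzβ'⟩ := hun y hyF
    have hzK := hFK (intrinsicInterior_subset hz)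
    have habs := abs_le.1 (hφM x hx)
    rw [← hτ] at habs
    have key : ∀ h : ℝ, 0 ≤ τ → 0 < h → h ≤ (1 - s) * τ + s * β →
        (1 - s) • y + s • (y - t) + h • v ∈ intrinsicInterior ℝ K := fun h hτ0 h0 h1 =>
      height hK hyK (by rw [hxy]; exact hx) hzK hzβ hs0 hs1 hτ0 hβ h0 h1
    have key' : ∀ h : ℝ, 0 ≤ -τ → 0 < h → h ≤ (1 - s) * (-τ) + s * β →
        (1 - s) • y + s • (y - t) + h • (-v) ∈ intrinsicInterior ℝ K := fun h hτ0 h0 h1 =>
      height hK hyK (by rw [hxy']; exact hx) hzK hzβ' hs0 hs1 hτ0 hβ h0 h1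
    rcases lt_trichotomy τ 0 with h0 | h0 | h0
    · rcases le_or_gt (-τ) β with hc | hc
      · have h1 := key' (-τ) (by linarith) (by linarith) (by nlinarith)
        refine Set.mem_iUnion₂.2 ⟨s • t, Finset.mem_union_left _ (Finset.mem_union_left _
          (Finset.mem_image_of_mem _ ht)), _, h1, ?_⟩
        simp only
        rw [hy]
        module
      · have h1 := key' (-τ - s * M) (by linarith) (by rw [hsM]; linarith) (by nlinarith)
        refine Set.mem_iUnion₂.2 ⟨s • t - (s * M) • v, Finset.mem_union_right _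
          (Finset.mem_image_of_mem _ ht), _, h1, ?_⟩
        simp only
        rw [hy]
        module
    · -- the point lies on the section
      have hzri : y - t ∈ intrinsicInterior ℝ K := by
        have := combo hK (intrinsicInterior_subset hzβ') hzβ (t := 1 / 2) (by norm_num)
          (by norm_num)
        convert this using 1
        module
      have h1 := combo hK hyK hzri hs0 hs1
      refine Set.mem_iUnion₂.2 ⟨s • t, Finset.mem_union_left _ (Finset.mem_union_left _
          (Finset.mem_image_of_mem _ ht)), _, h1, ?_⟩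
      simp only
      rw [hy, h0]
      module
    · rcases le_or_gt τ β with hc | hc
      · have h1 := key τ h0.le h0 (by nlinarith)
        refine Set.mem_iUnion₂.2 ⟨s • t, Finset.mem_union_left _ (Finset.mem_union_left _
          (Finset.mem_image_of_mem _ ht)), _, h1, ?_⟩
        simp only
        rw [hy]
        module
      · have h1 := key (τ - s * M) h0.le (by rw [hsM]; linarith) (by nlinarith)
        refine Set.mem_iUnion₂.2 ⟨s • t + (s * M) • v, Finset.mem_union_left _
          (Finset.mem_union_right _ (Finset.mem_image_of_mem _ ht)), _, h1, ?_⟩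
        simp only
        rw [hy]
        module

end Pool.Agent.V11317.Had
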